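import Pool.Agent.Lib.Sob.Moll

/-! The chain rule and truncations. -/

open MeasureTheory Set Filter Topology Metric
open scoped ContDiff RealInnerProductSpace ENNReal

noncomputable section
namespace Pool.Agent.Lib.Sob

variable {E : Type*} [NormedAddCommGroup E] [InnerProductSpace ℝ E] [FiniteDimensional ℝ E]
  [MeasurableSpace E] [BorelSpace E] {n : ℕ} {U : Set E} {u : E → ℝ} {D : E → E →L[ℝ] ℝ}

theorem LocLp.comp_of_le (h : LocLp n U u) {H : ℝ → ℝ} (hH : Measurable H) {a L : ℝ}
    (hle : ∀ s, ‖H s‖ ≤ L * |s - a|) : LocLp n U (fun x => H (u x)) := by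
  refine (h.sub (LocLp.of_continuousOn (continuousOn_const (c := a)))).of_le_mul
    (continuousOn_const (c := L)) (fun K hK hKU => ?_) (Eventually.of_forall fun x _ => hle _)
  exact (hH.comp_aemeasurable (h K hK hKU).1.aemeasurable).aestronglyMeasurable

theorem LocLp.comp_smul (h : LocLp n U u) (h' : LocLp n U D) {ψ : ℝ → ℝ} (hψ : Measurable ψ)
    {L : ℝ} (hle : ∀ s, ‖ψ s‖ ≤ L) : LocLp n U (fun x => ψ (u x) • D x) := by
  refine h'.of_le_mul (continuousOn_const (c := L)) (fun K hK hKU => ?_)
    (Eventually.of_forall fun x _ => ?_)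
  · exact (hψ.comp_aemeasurable (h K hK hKU).1.aemeasurable).aestronglyMeasurable.smul
      (h' K hK hKU).1
  · rw [norm_smul]; exact mul_le_mul_of_nonneg_right (hle _) (norm_nonneg _)

theorem enorm_le_ofReal {V : Type*} [NormedAddCommGroup V] {v : V} {L : ℝ} (h : ‖v‖ ≤ L) :
    ‖v‖ₑ ≤ ENNReal.ofReal L := by
  rw [← ofReal_norm]; exact ENNReal.ofReal_le_ofReal h

theorem tendsto_enorm_sub_pow {V : Type*} [NormedAddCommGroup V] (hn : 1 ≤ n) {f : ℕ → V} {v : V}
    (h : Tendsto f atTop (𝓝 v)) : Tendsto (fun k => ‖f k - v‖ₑ ^ n) atTop (𝓝 0) := by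
  have := ENNReal.Tendsto.pow (n := n) (h.sub (tendsto_const_nhds (x := v))).enorm
  simpa [show n ≠ 0 by omega] using this

omit [FiniteDimensional ℝ E] [MeasurableSpace E] [BorelSpace E] in
theorem sub_smul' (a b : ℝ) (v : E →L[ℝ] ℝ) : (a - b) • v = a • v - b • v := by
  ext e; simp [sub_mul]

/-- Chain rule for the primitive of a bounded continuous function. -/
theorem WD.comp_primitive_cont (hn : 1 ≤ n) (hU : IsOpen U) (h : WD n U u D) {ψ : ℝ → ℝ}
    (hψ : Continuous ψ) {L : ℝ} (hle : ∀ s, ‖ψ s‖ ≤ L) (a : ℝ) :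
    WD n U (fun x => ∫ t in a..u x, ψ t) (fun x => ψ (u x) • D x) := by
  set H : ℝ → ℝ := fun s => ∫ t in a..s, ψ t with hHdef
  have hd : ∀ s, HasDerivAt H (ψ s) s := fun s => (hψ.integral_hasStrictDerivAt a s).hasDerivAt
  have hC : ContDiff ℝ 1 H := by
    rw [contDiff_one_iff_deriv]
    refine ⟨fun s => (hd s).differentiableAt, ?_⟩
    rwa [show deriv H = ψ from funext fun s => (hd s).deriv]
  have hlip : ∀ s t, ‖H s - H t‖ ≤ L * ‖s - t‖ := by
    intro s t
    rw [hHdef]
    simp only
    rw [intervalIntegral.integral_interval_sub_left (hψ.intervalIntegrable _ _)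
      (hψ.intervalIntegrable _ _)]
    exact intervalIntegral.norm_integral_le_of_norm_le_const fun x _ => hle x
  have hL : 0 ≤ L := (norm_nonneg _).trans (hle 0)
  refine WD.of_tendsto hn (h.1.comp_of_le hC.continuous.measurable (a := a) (L := L) fun s =>
    intervalIntegral.norm_integral_le_of_norm_le_const fun x _ => hle x)
    (h.1.comp_smul h.2.1 hψ.measurable hle) fun K hK hKU => ?_
  obtain ⟨v, sv, t0, t1, t2⟩ := h.approx hn hU hK hKU
  refine ⟨univ, subset_univ _, fun k x => H (v k x), fun k x => ψ (v k x) • fderiv ℝ (v k) x,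
    fun k => ?_, ?_, ?_⟩
  · refine (WD.of_contDiff hn (hC.comp ((sv k).of_le (by simp)))).congr' (fun _ _ => rfl)
      fun x _ => ?_
    exact ((hd (v k x)).comp_hasFDerivAt x
      ((sv k).differentiable (by simp) x).hasFDerivAt).fderiv
  · have t := ENNReal.Tendsto.const_mul (a := ENNReal.ofReal L ^ n) t1 (Or.inr (by simp))
    rw [mul_zero] at t
    refine tendsto_of_tendsto_of_tendsto_of_le_of_le tendsto_const_nhds t (fun _ => zero_le)
      fun k => ?_
    rw [← lintegral_const_mul' _ _ (by simp)]
    refine lintegral_mono fun x => ?_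
    rw [← mul_pow]
    refine pow_le_pow_left' ((enorm_le_ofReal (hlip _ _)).trans ?_) n
    rw [ENNReal.ofReal_mul hL, ofReal_norm]
  · have mu := (h.1 K hK hKU).1
    have mD := (h.2.1 K hK hKU).1
    have t3 : Tendsto (fun k => ∫⁻ x in K, ‖(ψ (v k x) - ψ (u x)) • D x‖ₑ ^ n) atTop (𝓝 0) := by
      have := tendsto_lintegral_of_dominated_convergence' (μ := volume.restrict K)
        (F := fun k x => ‖(ψ (v k x) - ψ (u x)) • D x‖ₑ ^ n) (f := fun _ => 0)
        (fun x => ENNReal.ofReal (L + L) ^ n * ‖D x‖ₑ ^ n) (fun k =>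
          ((((hψ.comp (sv k).continuous).aestronglyMeasurable.sub
            (hψ.comp_aestronglyMeasurable mu)).smul mD).enorm.pow_const n))
        (fun k => Eventually.of_forall fun x => ?_) ?_ ?_
      · simpa using this
      · simp only
        rw [← mul_pow, enorm_smul]
        gcongr
        exact enorm_le_ofReal ((norm_sub_le _ _).trans (add_le_add (hle _) (hle _)))
      · rw [lintegral_const_mul' _ _ (by simp)]
        exact ENNReal.mul_ne_top (by simp) (lintegral_pow_lt_top hn (h.2.1 K hK hKU)).ne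
      · filter_upwards [ae_restrict_of_ae t0, ae_restrict_mem hK.measurableSet] with x hx hxK
        simp only [sub_smul']
        exact tendsto_enorm_sub_pow hn (((hψ.tendsto _).comp (hx hxK)).smul tendsto_const_nhds)
    have t := ENNReal.Tendsto.const_mul (a := 2 ^ n)
      ((ENNReal.Tendsto.const_mul (a := ENNReal.ofReal L ^ n) t2 (Or.inr (by simp))).add t3)
      (Or.inr (by simp))
    simp only [mul_zero, add_zero] at t
    refine tendsto_of_tendsto_of_tendsto_of_le_of_le tendsto_const_nhds t (fun _ => zero_le)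
      fun k => ?_
    have m1 : AEMeasurable (fun x => ENNReal.ofReal L ^ n * ‖fderiv ℝ (v k) x - D x‖ₑ ^ n)
        (volume.restrict K) :=
      ((((sv k).continuous_fderiv (by simp)).aestronglyMeasurable.sub mD).enorm.pow_const
        n).const_mul _
    simp only
    rw [← lintegral_const_mul' _ _ (by simp), ← lintegral_add_left' m1,
      ← lintegral_const_mul' _ _ (by simp)]
    refine lintegral_mono fun x => ?_
    have e : ψ (v k x) • fderiv ℝ (v k) x - ψ (u x) • D x =
        ψ (v k x) • (fderiv ℝ (v k) x - D x) + (ψ (v k x) - ψ (u x)) • D x := by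
      rw [smul_sub, sub_smul']; abel
    simp only
    rw [e]
    refine (enorm_add_pow_le n _ _).trans ?_
    rw [← mul_pow, enorm_smul]
    gcongr
    exact enorm_le_ofReal (hle _)

/-- Chain rule for the primitive of a bounded pointwise limit of continuous functions. -/
theorem WD.comp_primitive (hn : 1 ≤ n) (hU : IsOpen U) (h : WD n U u D) {ψ : ℝ → ℝ}
    {ψk : ℕ → ℝ → ℝ} (hψ : ∀ k, Continuous (ψk k)) {L : ℝ} (hle : ∀ k s, ‖ψk k s‖ ≤ L)
    (hlim : ∀ s, Tendsto (fun k => ψk k s) atTop (𝓝 (ψ s))) (a : ℝ) :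
    WD n U (fun x => ∫ t in a..u x, ψ t) (fun x => ψ (u x) • D x) := by
  have mψ : Measurable ψ := measurable_of_tendsto_metrizable (fun k => (hψ k).measurable)
    (tendsto_pi_nhds.2 hlim)
  have hle' : ∀ s, ‖ψ s‖ ≤ L := fun s =>
    le_of_tendsto (hlim s).norm (Eventually.of_forall fun k => hle k s)
  have hL : 0 ≤ L := (norm_nonneg _).trans (hle' 0)
  have hI : ∀ s, Tendsto (fun k => ∫ t in a..s, ψk k t) atTop (𝓝 (∫ t in a..s, ψ t)) := fun s =>
    intervalIntegral.tendsto_integral_filter_of_dominated_convergence (fun _ => L)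
      (Eventually.of_forall fun k => (hψ k).aestronglyMeasurable)
      (Eventually.of_forall fun k => Eventually.of_forall fun t _ => hle k t)
      intervalIntegrable_const (Eventually.of_forall fun t _ => hlim t)
  have mH : ∀ k, Measurable fun s => ∫ t in a..s, ψk k t := fun k =>
    (continuous_iff_continuousAt.2 fun s =>
      ((hψ k).integral_hasStrictDerivAt a s).hasDerivAt.continuousAt).measurable
  have mI : Measurable fun s => ∫ t in a..s, ψ t :=
    measurable_of_tendsto_metrizable mH (tendsto_pi_nhds.2 hI)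
  have b1 : ∀ s, ‖∫ t in a..s, ψ t‖ ≤ L * |s - a| := fun s =>
    intervalIntegral.norm_integral_le_of_norm_le_const fun x _ => hle' x
  have b2 : ∀ k s, ‖∫ t in a..s, ψk k t‖ ≤ L * |s - a| := fun k s =>
    intervalIntegral.norm_integral_le_of_norm_le_const fun x _ => hle k x
  have l1 := h.1.comp_of_le mI b1
  have l2 := h.1.comp_smul h.2.1 mψ hle'
  have hk := fun k => h.comp_primitive_cont hn hU (hψ k) (hle k) a
  refine WD.of_tendsto hn l1 l2 fun K hK hKU => ⟨U, hKU, _, _, hk, ?_, ?_⟩
  · have := tendsto_lintegral_of_dominated_convergence' (μ := volume.restrict K)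
      (F := fun k x => ‖(∫ t in a..u x, ψk k t) - ∫ t in a..u x, ψ t‖ₑ ^ n) (f := fun _ => 0)
      (fun x => ENNReal.ofReal (L + L) ^ n * ‖u x - a‖ₑ ^ n) (fun k =>
        (((hk k).1 K hK hKU).1.sub (l1 K hK hKU).1).enorm.pow_const n)
      (fun k => Eventually.of_forall fun x => ?_) ?_ (Eventually.of_forall fun x => ?_)
    · simpa using this
    · simp only
      rw [← mul_pow, ← ofReal_norm (u x - a), ← ENNReal.ofReal_mul (by positivity), add_mul]
      gcongr
      exact enorm_le_ofReal ((norm_sub_le _ _).trans (add_le_add (b2 _ _) (b1 _)))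
    · rw [lintegral_const_mul' _ _ (by simp)]
      exact ENNReal.mul_ne_top (by simp) (lintegral_pow_lt_top hn
        ((h.1.sub (LocLp.of_continuousOn (continuousOn_const (c := a)))) K hK hKU)).ne
    · exact tendsto_enorm_sub_pow hn (hI (u x))
  · have := tendsto_lintegral_of_dominated_convergence' (μ := volume.restrict K)
      (F := fun k x => ‖ψk k (u x) • D x - ψ (u x) • D x‖ₑ ^ n) (f := fun _ => 0)
      (fun x => ENNReal.ofReal (L + L) ^ n * ‖D x‖ₑ ^ n) (fun k =>
        (((hk k).2.1 K hK hKU).1.sub (l2 K hK hKU).1).enorm.pow_const n)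
      (fun k => Eventually.of_forall fun x => ?_) ?_ (Eventually.of_forall fun x => ?_)
    · simpa using this
    · simp only
      rw [← mul_pow, ← sub_smul', enorm_smul]
      gcongr
      exact enorm_le_ofReal ((norm_sub_le _ _).trans (add_le_add (hle _ _) (hle' _)))
    · rw [lintegral_const_mul' _ _ (by simp)]
      exact ENNReal.mul_ne_top (by simp) (lintegral_pow_lt_top hn (h.2.1 K hK hKU)).ne
    · exact tendsto_enorm_sub_pow hn ((hlim (u x)).smul tendsto_const_nhds)

/-- Chain rule with truncation at the levels `a < b`. -/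
theorem WD.chain (hn : 1 ≤ n) (hU : IsOpen U) (h : WD n U u D) {a b : ℝ} (hab : a < b)
    {H H' : ℝ → ℝ} (hH : ∀ s ∈ Icc a b, HasDerivAt H (H' s) s) (hH' : ContinuousOn H' (Icc a b)) :
    WD n U (fun x => H (min (max (u x) a) b))
      ({x | a < u x ∧ u x < b}.indicator fun x => H' (u x) • D x) := by
  set T : ℝ → ℝ := fun s => min (max s a) b with hT
  have cT : Continuous T := by fun_prop
  have mT : ∀ s, T s ∈ Icc a b := fun s =>
    ⟨le_min (le_max_right _ _) hab.le, min_le_right _ _⟩
  have eT : ∀ s ∈ Ioo a b, T s = s := fun s hs => by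
    simp only [hT]; rw [max_eq_left hs.1.le, min_eq_left hs.2.le]
  obtain ⟨L, hL⟩ := isCompact_Icc.exists_bound_of_continuousOn hH'
  have hL0 : 0 ≤ L := (norm_nonneg _).trans (hL a ⟨le_rfl, hab.le⟩)
  have cH : Continuous fun s => H' (T s) := hH'.comp_continuous cT mT
  set ψ : ℝ → ℝ := (Ioo a b).indicator H' with hψ
  set c : ℕ → ℝ → ℝ := fun k s => min 1 (k * max (min (s - a) (b - s)) 0) with hc
  have c0 : ∀ k s, 0 ≤ c k s := fun k s => le_min zero_le_one (by positivity)
  have hlim : ∀ s, Tendsto (fun k => c k s * H' (T s)) atTop (𝓝 (ψ s)) := by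
    intro s
    by_cases hs : s ∈ Ioo a b
    · have hp : 0 < max (min (s - a) (b - s)) 0 :=
        lt_max_of_lt_left (lt_min (sub_pos.2 hs.1) (sub_pos.2 hs.2))
      rw [hψ, indicator_of_mem hs, eT s hs]
      refine tendsto_const_nhds.congr' ?_
      filter_upwards [(tendsto_natCast_atTop_atTop.atTop_mul_const hp).eventually_ge_atTop 1]
        with k hk
      simp only [hc]
      rw [min_eq_left hk, one_mul]
    · have hp : max (min (s - a) (b - s)) 0 = 0 := by
        refine max_eq_right ?_
        by_contra h'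
        rw [not_le, lt_min_iff] at h'
        exact hs ⟨by linarith [h'.1], by linarith [h'.2]⟩
      rw [hψ, indicator_of_notMem hs]
      simp [hc, hp]
  have hb : ∀ k s, ‖c k s * H' (T s)‖ ≤ L := fun k s => by
    rw [norm_mul, Real.norm_of_nonneg (c0 k s)]
    exact (mul_le_of_le_one_left (norm_nonneg _) (min_le_left _ _)).trans (hL _ (mT s))
  have key := (h.comp_primitive hn hU (ψk := fun k s => c k s * H' (T s))
    (fun k => (by simp only [hc]; fun_prop : Continuous (c k)).mul cH) hb hlim a).add_const hn (H a)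
  refine key.congr' (fun x _ => ?_) (fun x _ => ?_)
  · have mψ : Measurable ψ := measurable_of_tendsto_metrizable
      (fun k => ((by simp only [hc]; fun_prop : Continuous (c k)).mul cH).measurable)
      (tendsto_pi_nhds.2 hlim)
    have hle' : ∀ s, ‖ψ s‖ ≤ L := fun s =>
      le_of_tendsto (hlim s).norm (Eventually.of_forall fun k => hb k s)
    have cHT : Continuous fun s => H (T s) :=
      ContinuousOn.comp_continuous (fun s hs => (hH s hs).continuousAt.continuousWithinAt) cT mT
    have := integral_eq_of_hasDerivAt_off_countable (fun s => H (T s)) ψ (a := a) (b := u x)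
      (s := {a, b}) (Set.toFinite _).countable cHT.continuousOn (fun s hs => ?_)
      ((intervalIntegrable_const (c := L)).mono_fun mψ.aestronglyMeasurable
        (Eventually.of_forall fun s => (hle' s).trans (le_abs_self _)))
    · rw [this]
      simp [hT, hab.le]
    · have hs' : s ≠ a ∧ s ≠ b := by simpa [not_or] using hs.2
      by_cases hs2 : s ∈ Ioo a b
      · rw [hψ, indicator_of_mem hs2]
        refine (hH s (Ioo_subset_Icc_self hs2)).congr_of_eventuallyEq ?_
        filter_upwards [isOpen_Ioo.mem_nhds hs2] with t ht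
        rw [eT t ht]
      · rw [hψ, indicator_of_notMem hs2]
        rcases lt_or_gt_of_ne hs'.1 with h1 | h1
        · refine (hasDerivAt_const s (H a)).congr_of_eventuallyEq ?_
          filter_upwards [isOpen_Iio.mem_nhds h1] with t ht
          simp only [hT]
          rw [max_eq_right (le_of_lt ht), min_eq_left hab.le]
        · have h2 : b < s := lt_of_le_of_ne (not_lt.1 fun h' => hs2 ⟨h1, h'⟩) hs'.2.symm
          refine (hasDerivAt_const s (H b)).congr_of_eventuallyEq ?_
          filter_upwards [isOpen_Ioi.mem_nhds h2] with t ht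
          simp only [hT]
          rw [min_eq_right (le_max_of_le_left (le_of_lt ht))]
  · by_cases hx : u x ∈ Ioo a b
    · rw [hψ, indicator_of_mem hx, indicator_of_mem (show x ∈ {x | a < u x ∧ u x < b} from hx)]
    · rw [hψ, indicator_of_notMem hx,
        indicator_of_notMem (show x ∉ {x | a < u x ∧ u x < b} from hx), zero_smul]

/-- Truncation. -/
theorem WD.trunc (hn : 1 ≤ n) (hU : IsOpen U) (h : WD n U u D) {a b : ℝ} (hab : a < b) :
    WD n U (fun x => min (max (u x) a) b) ({x | a < u x ∧ u x < b}.indicator D) := by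
  simpa using h.chain hn hU hab (H := id) (H' := fun _ => 1) (fun s _ => hasDerivAt_id s)
    continuousOn_const

/-- The weak derivative vanishes almost everywhere on a level set. -/
theorem WD.ae_zero_on_level (hn : 1 ≤ n) (hU : IsOpen U) (h : WD n U u D) (c : ℝ) :
    ∀ᵐ x, x ∈ U → u x = c → D x = 0 := by
  have h1 := h.trunc hn hU (show c - 1 < c by linarith)
  have h2 := h.trunc hn hU (show c < c + 1 by linarith)
  have h3 := h.trunc hn hU (show c - 1 < c + 1 by linarith)
  have h4 := ((h1.add hn h2).sub_const hn c).congr' (v := fun x => min (max (u x) (c - 1)) (c + 1))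
    (fun x _ => by
      simp only [min_def, max_def]
      split_ifs <;> linarith) (fun _ _ => rfl)
  filter_upwards [h3.unique hn hU h4] with x hx hxU hc
  have := hx hxU
  rwa [indicator_of_mem (show x ∈ {x | c - 1 < u x ∧ u x < c + 1} from
      ⟨by linarith, by linarith⟩),
    indicator_of_notMem (show x ∉ {x | c - 1 < u x ∧ u x < c} from fun h => h.2.ne hc),
    indicator_of_notMem (show x ∉ {x | c < u x ∧ u x < c + 1} from fun h => h.1.ne' hc),
    add_zero] at this

end Pool.Agent.Lib.Sob
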