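import Pool.Agent.Lib.Sob.Chain

/-! Poincare inequality on compact convex sets. -/

open MeasureTheory Set Filter Topology Metric Module
open scoped ContDiff RealInnerProductSpace ENNReal

noncomputable section
namespace Pool.Agent.Lib.Sob

variable {E : Type*} [NormedAddCommGroup E] [InnerProductSpace ℝ E] [FiniteDimensional ℝ E]
  [MeasurableSpace E] [BorelSpace E] {V : Type*} [NormedAddCommGroup V] [NormedSpace ℝ V]
  {n : ℕ} {U K : Set E}

theorem lintegral_segment_le {G : E → ℝ≥0∞} (hG : Measurable G) (hK : MeasurableSet K)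
    (hc : Convex ℝ K) {y : E} (hy : y ∈ K) {t : ℝ} (h1 : 1 / 2 ≤ t) (h2 : t ≤ 1) :
    ∫⁻ x in K, G (y + t • (x - y)) ≤ 2 ^ finrank ℝ E * ∫⁻ x in K, G x := by
  have ht : 0 < t := by linarith
  have mF : Measurable (K.indicator G) := hG.indicator hK
  calc ∫⁻ x in K, G (y + t • (x - y))
      = ∫⁻ x in K, K.indicator G (t • x + (y - t • y)) := by
        refine setLIntegral_congr_fun hK fun x hx => ?_
        have e : y + t • (x - y) = t • x + (y - t • y) := by rw [smul_sub]; abel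
        rw [← e, indicator_of_mem (hc.add_smul_sub_mem hy hx ⟨ht.le, h2⟩)]
    _ ≤ ∫⁻ x, K.indicator G (t • x + (y - t • y)) := setLIntegral_le_lintegral _ _
    _ = ∫⁻ x, K.indicator G (x + (y - t • y)) ∂(Measure.map (t • ·) volume) :=
        (lintegral_map (mF.comp (measurable_add_const _)) (measurable_const_smul t)).symm
    _ = ENNReal.ofReal |(t ^ finrank ℝ E)⁻¹| * ∫⁻ x in K, G x := by
        rw [Measure.map_addHaar_smul _ ht.ne', lintegral_smul_measure,
          lintegral_add_right_eq_self (K.indicator G), lintegral_indicator hK, smul_eq_mul]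
    _ ≤ _ := by
        gcongr
        rw [abs_of_pos (by positivity), ← inv_pow, ENNReal.ofReal_pow (by positivity)]
        gcongr
        rw [← ENNReal.ofReal_ofNat 2]
        refine ENNReal.ofReal_le_ofReal ?_
        rw [inv_le_comm₀ ht (by norm_num)]
        linarith

theorem lintegral_segment₂_le {G : E → ℝ≥0∞} (hG : Measurable G) (hK : MeasurableSet K)
    (hc : Convex ℝ K) {t : ℝ} (h1 : 0 ≤ t) (h2 : t ≤ 1) :
    ∫⁻ y in K, ∫⁻ x in K, G (y + t • (x - y)) ≤
      2 ^ finrank ℝ E * volume K * ∫⁻ x in K, G x := by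
  have key : ∀ s : ℝ, 1 / 2 ≤ s → s ≤ 1 → ∫⁻ y in K, ∫⁻ x in K, G (y + s • (x - y)) ≤
      2 ^ finrank ℝ E * volume K * ∫⁻ x in K, G x := by
    intro s s1 s2
    refine (setLIntegral_mono' hK fun y hy => lintegral_segment_le hG hK hc hy s1 s2).trans ?_
    rw [setLIntegral_const]
    exact le_of_eq (by ring)
  rcases le_total (1 / 2) t with h | h
  · exact key t h h2
  · rw [lintegral_lintegral_swap (f := fun y x => G (y + t • (x - y)))
      (hG.comp (show Measurable fun z : E × E =>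
      z.1 + t • (z.2 - z.1) by fun_prop)).aemeasurable]
    refine le_trans (le_of_eq ?_) (key (1 - t) (by linarith) (by linarith))
    refine lintegral_congr fun x => lintegral_congr fun y => ?_
    congr 1
    rw [sub_smul, one_smul, smul_sub, smul_sub]; abel

omit [FiniteDimensional ℝ E] [MeasurableSpace E] [BorelSpace E] in
theorem enorm_sub_pow_le_segment [CompleteSpace V] (hn : 1 ≤ n) {v : E → V} (hv : ContDiff ℝ 1 v)
    (x y : E) : ‖v x - v y‖ₑ ^ n ≤
      ‖x - y‖ₑ ^ n * ∫⁻ t in Ioc (0 : ℝ) 1, ‖fderiv ℝ v (y + t • (x - y))‖ₑ ^ n := by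
  have cD : Continuous fun t : ℝ => fderiv ℝ v (y + t • (x - y)) :=
    (hv.continuous_fderiv one_ne_zero).comp (by fun_prop)
  have hd : ∀ t : ℝ, HasDerivAt (fun t : ℝ => v (y + t • (x - y)))
      (fderiv ℝ v (y + t • (x - y)) (x - y)) t := fun t => by
    have h1 : HasDerivAt (fun t : ℝ => y + t • (x - y)) (x - y) t := by
      simpa using ((hasDerivAt_id t).smul_const (x - y)).const_add y
    exact (hv.differentiable one_ne_zero _).hasFDerivAt.comp_hasDerivAt t h1
  have e := intervalIntegral.integral_eq_sub_of_hasDerivAt (a := 0) (b := 1) (fun t _ => hd t)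
    ((cD.clm_apply continuous_const).intervalIntegrable _ _)
  simp only [one_smul, add_sub_cancel, zero_smul, add_zero] at e
  have : IsProbabilityMeasure (volume.restrict (Ioc (0 : ℝ) 1)) := ⟨by simp⟩
  refine le_trans ?_ (mul_le_mul_right
    (lintegral_pow_jensen hn cD.aestronglyMeasurable.enorm) _)
  rw [← mul_pow]
  refine pow_le_pow_left' ?_ n
  rw [← e, intervalIntegral.integral_of_le zero_le_one, ← lintegral_const_mul' _ _ enorm_ne_top]
  refine (enorm_integral_le_lintegral_enorm _).trans (lintegral_mono fun t => ?_)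
  rw [mul_comm]
  exact ContinuousLinearMap.le_opENorm _ _

theorem poincare2_smooth [CompleteSpace V] (hn : 1 ≤ n) {v : E → V} (hv : ContDiff ℝ 1 v)
    (hK : MeasurableSet K) (hc : Convex ℝ K) {d : ℝ} (hd : ∀ x ∈ K, ∀ y ∈ K, dist x y ≤ d) :
    ∫⁻ y in K, ∫⁻ x in K, ‖v x - v y‖ₑ ^ n ≤ ENNReal.ofReal d ^ n *
      (2 ^ finrank ℝ E * volume K * ∫⁻ x in K, ‖fderiv ℝ v x‖ₑ ^ n) := by
  set G : E → ℝ≥0∞ := fun x => ‖fderiv ℝ v x‖ₑ ^ n with hGdef
  have hG : Measurable G := (hv.continuous_fderiv one_ne_zero).enorm.measurable.pow_const n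
  calc ∫⁻ y in K, ∫⁻ x in K, ‖v x - v y‖ₑ ^ n
      ≤ ∫⁻ y in K, ∫⁻ x in K, ENNReal.ofReal d ^ n *
          ∫⁻ t in Ioc (0 : ℝ) 1, G (y + t • (x - y)) := by
        refine setLIntegral_mono' hK fun y hy => setLIntegral_mono' hK fun x hx => ?_
        refine (enorm_sub_pow_le_segment hn hv x y).trans ?_
        gcongr
        exact enorm_le_ofReal (by rw [← dist_eq_norm]; exact hd x hx y hy)
    _ = ENNReal.ofReal d ^ n * ∫⁻ y in K, ∫⁻ t in Ioc (0 : ℝ) 1, ∫⁻ x in K,
          G (y + t • (x - y)) := by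
        rw [← lintegral_const_mul' _ _ (by simp)]
        refine lintegral_congr fun y => ?_
        rw [lintegral_const_mul' _ _ (by simp),
          lintegral_lintegral_swap (f := fun x (t : ℝ) => G (y + t • (x - y)))
            (hG.comp (show Measurable fun z : E × ℝ =>
            y + z.2 • (z.1 - y) by fun_prop)).aemeasurable]
    _ = ENNReal.ofReal d ^ n * ∫⁻ t in Ioc (0 : ℝ) 1, ∫⁻ y in K, ∫⁻ x in K,
          G (y + t • (x - y)) := by
        rw [lintegral_lintegral_swap]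
        refine (Measurable.lintegral_prod_right' (f := fun z : (E × ℝ) × E =>
          G (z.1.1 + z.1.2 • (z.2 - z.1.1))) (hG.comp (by fun_prop))).aemeasurable
    _ ≤ _ := by
        gcongr
        refine (setLIntegral_mono' measurableSet_Ioc fun t ht =>
          lintegral_segment₂_le hG hK hc ht.1.le ht.2).trans ?_
        simp [hGdef]

theorem tendsto_lintegral_pow_of_sub {α : Type*} [MeasurableSpace α] {μ : Measure α}
    {W : Type*} [NormedAddCommGroup W] (hn : 1 ≤ n) {f : ℕ → α → W} {g : α → W}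
    (hf : ∀ k, AEStronglyMeasurable (f k) μ) (hg : AEStronglyMeasurable g μ)
    (h : Tendsto (fun k => ∫⁻ x, ‖f k x - g x‖ₑ ^ n ∂μ) atTop (𝓝 0)) :
    ∃ B : ℕ → ℝ≥0∞, (∀ k, ∫⁻ x, ‖f k x‖ₑ ^ n ∂μ ≤ B k) ∧
      Tendsto B atTop (𝓝 (∫⁻ x, ‖g x‖ₑ ^ n ∂μ)) := by
  have h1 : Tendsto (fun k => eLpNorm (fun x => f k x - g x) n μ) atTop (𝓝 0) := by
    simp only [lintegral_pow_eq hn] at h
    have := h.ennrpow_const ((n : ℝ)⁻¹)
    have hn' : (0 : ℝ) < n := by exact_mod_cast hn
    rw [ENNReal.zero_rpow_of_pos (inv_pos.2 hn')] at this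
    refine this.congr fun k => ?_
    rw [← ENNReal.rpow_natCast, ← ENNReal.rpow_mul, mul_inv_cancel₀ hn'.ne', ENNReal.rpow_one]
  refine ⟨fun k => (eLpNorm (fun x => f k x - g x) n μ + eLpNorm g n μ) ^ n, fun k => ?_, ?_⟩
  · rw [lintegral_pow_eq hn]
    refine pow_le_pow_left' ?_ n
    have := eLpNorm_add_le (p := n) ((hf k).sub hg) hg (by exact_mod_cast hn)
    rwa [sub_add_cancel] at this
  · rw [lintegral_pow_eq hn]
    simpa using ENNReal.Tendsto.pow (n := n) (h1.add (tendsto_const_nhds (x := eLpNorm g n μ)))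

/-- Poincare inequality, double integral form. -/
theorem WD.poincare2 [CompleteSpace V] (hn : 1 ≤ n) (hU : IsOpen U) {u : E → V}
    {D : E → E →L[ℝ] V} (h : WD n U u D) (hK : IsCompact K) (hc : Convex ℝ K) (hKU : K ⊆ U)
    {d : ℝ} (hd : ∀ x ∈ K, ∀ y ∈ K, dist x y ≤ d) :
    ∫⁻ y in K, ∫⁻ x in K, ‖u x - u y‖ₑ ^ n ≤ ENNReal.ofReal d ^ n *
      (2 ^ finrank ℝ E * volume K * ∫⁻ x in K, ‖D x‖ₑ ^ n) := by
  obtain ⟨v, sv, t0, -, t2⟩ := h.approx hn hU hK hKU
  obtain ⟨B, hB, tB⟩ := tendsto_lintegral_pow_of_sub hn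
    (fun k => ((sv k).continuous_fderiv (by simp)).aestronglyMeasurable) (h.2.1 K hK hKU).1 t2
  have t0' : ∀ᵐ x ∂(volume.restrict K), Tendsto (fun k => v k x) atTop (𝓝 (u x)) := by
    filter_upwards [ae_restrict_of_ae t0, ae_restrict_mem hK.measurableSet] with x h1 h2
      using h1 h2
  have cv := fun k => (sv k).continuous
  have t3 : Tendsto (fun k => ENNReal.ofReal d ^ n * (2 ^ finrank ℝ E * volume K * B k)) atTop
      (𝓝 (ENNReal.ofReal d ^ n * (2 ^ finrank ℝ E * volume K * ∫⁻ x in K, ‖D x‖ₑ ^ n))) :=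
    ENNReal.Tendsto.const_mul (ENNReal.Tendsto.const_mul tB (Or.inr
      (ENNReal.mul_ne_top (by simp) hK.measure_lt_top.ne))) (Or.inr (by simp))
  calc ∫⁻ y in K, ∫⁻ x in K, ‖u x - u y‖ₑ ^ n
      ≤ ∫⁻ y in K, liminf (fun k => ∫⁻ x in K, ‖v k x - v k y‖ₑ ^ n) atTop := by
        refine lintegral_mono_ae ?_
        filter_upwards [t0'] with y hy
        refine le_trans (le_of_eq (lintegral_congr_ae ?_)) (lintegral_liminf_le' fun k =>
          (((cv k).sub continuous_const).enorm.measurable.pow_const n).aemeasurable)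
        filter_upwards [t0'] with x hx
        exact (ENNReal.Tendsto.pow (hx.sub hy).enorm).liminf_eq.symm
    _ ≤ liminf (fun k => ∫⁻ y in K, ∫⁻ x in K, ‖v k x - v k y‖ₑ ^ n) atTop := by
        refine lintegral_liminf_le' fun k => ?_
        have := cv k
        refine (Measurable.lintegral_prod_right' (f := fun z : E × E =>
          ‖v k z.2 - v k z.1‖ₑ ^ n) ?_).aemeasurable
        exact (Continuous.enorm (by fun_prop)).measurable.pow_const n
    _ ≤ _ := by
        rw [← t3.liminf_eq]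
        refine liminf_le_liminf (Eventually.of_forall fun k => ?_)
        refine (poincare2_smooth hn ((sv k).of_le (by simp)) hK.measurableSet hc hd).trans ?_
        gcongr
        exact hB k

/-- Poincare inequality. -/
theorem WD.poincare [CompleteSpace V] (hn : 1 ≤ n) (hU : IsOpen U) {u : E → V}
    {D : E → E →L[ℝ] V} (h : WD n U u D) (hK : IsCompact K) (hc : Convex ℝ K) (hKU : K ⊆ U)
    {d : ℝ} (hd : ∀ x ∈ K, ∀ y ∈ K, dist x y ≤ d) :
    ∃ c : V, ∫⁻ x in K, ‖u x - c‖ₑ ^ n ≤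
      ENNReal.ofReal d ^ n * 2 ^ finrank ℝ E * ∫⁻ x in K, ‖D x‖ₑ ^ n := by
  by_cases h0 : volume K = 0
  · exact ⟨0, by rw [setLIntegral_measure_zero _ _ h0]; exact zero_le⟩
  have mu := (h.1 K hK hKU).1
  have m : AEMeasurable (fun y => ∫⁻ x in K, ‖u x - u y‖ₑ ^ n) (volume.restrict K) :=
    AEMeasurable.lintegral_prod_right' (f := fun z : E × E => ‖u z.2 - u z.1‖ₑ ^ n)
      ((mu.comp_snd.sub mu.comp_fst).enorm.pow_const n)
  obtain ⟨y, -, hy⟩ := exists_le_setLAverage h0 hK.measure_lt_top.ne m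
  refine ⟨u y, hy.trans ?_⟩
  rw [setLAverage_eq]
  refine ENNReal.div_le_of_le_mul ((h.poincare2 hn hU hK hc hKU hd).trans (le_of_eq ?_))
  ring

end Pool.Agent.Lib.Sob
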