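import Pool.Agent.Lib.Sob.Defs

/-! Elementary calculus of weak derivatives. -/

open MeasureTheory Set Filter Topology Metric
open scoped ContDiff RealInnerProductSpace ENNReal

noncomputable section
namespace Pool.Agent.Lib.Sob

variable {E : Type*} [NormedAddCommGroup E] [InnerProductSpace ℝ E] [FiniteDimensional ℝ E]
  [MeasurableSpace E] [BorelSpace E] {V W : Type*} [NormedAddCommGroup V] [NormedSpace ℝ V]
  [NormedAddCommGroup W] [NormedSpace ℝ W] {n : ℕ} {U : Set E}

omit [MeasurableSpace E] [BorelSpace E] in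
theorem exists_cutoff {K O : Set E} (hK : IsCompact K) (hO : IsOpen O) (hKO : K ⊆ O) :
    ∃ χ : E → ℝ, IsTest O χ ∧ (∀ᶠ x in 𝓝ˢ K, χ x = 1) ∧ ∀ x, χ x ∈ Icc (0 : ℝ) 1 := by
  obtain ⟨K', hK', hKK', hK'O⟩ := exists_compact_between hK hO hKO
  obtain ⟨f, h1, h0, hf⟩ := exists_contMDiffMap_one_nhds_of_subset_interior
    (n := (⊤ : ℕ∞)) (modelWithCornersSelf ℝ E) hK.isClosed hKK'
  have hs : tsupport f ⊆ K' := closure_minimal (fun x hx => by
    by_contra h; exact hx (h0 x h)) hK'.isClosed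
  exact ⟨f, ⟨f.contMDiff.contDiff, hK'.of_isClosed_subset (isClosed_tsupport _) hs,
    hs.trans hK'O⟩, h1, hf⟩

namespace IsTest
omit [MeasurableSpace E] [BorelSpace E] [FiniteDimensional ℝ E]
variable {φ : E → ℝ}

theorem mono {U' : Set E} (h : IsTest U φ) (hU : U ⊆ U') : IsTest U' φ :=
  ⟨h.1, h.2.1, h.2.2.trans hU⟩

theorem continuous (h : IsTest U φ) : Continuous φ := h.1.continuous

theorem differentiable (h : IsTest U φ) : Differentiable ℝ φ := h.1.differentiable (by simp)

theorem continuous_fderiv (h : IsTest U φ) : Continuous (fderiv ℝ φ) :=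
  h.1.continuous_fderiv (by simp)

theorem continuous_fderiv_apply (h : IsTest U φ) (e : E) :
    Continuous (fun x => fderiv ℝ φ x e) := h.continuous_fderiv.clm_apply continuous_const

theorem mul_left (h : IsTest U φ) {ζ : E → ℝ} (hζ : ContDiff ℝ ∞ ζ) :
    IsTest U (fun x => ζ x * φ x) :=
  ⟨hζ.mul h.1, h.2.1.mul_left, (tsupport_mul_subset_right).trans h.2.2⟩

theorem zero_of_notMem (h : IsTest U φ) {x : E} (hx : x ∉ U) : φ x = 0 :=
  image_eq_zero_of_notMem_tsupport (fun h' => hx (h.2.2 h'))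

theorem fderiv_zero_of_notMem (h : IsTest U φ) {x : E} (hx : x ∉ U) : fderiv ℝ φ x = 0 :=
  image_eq_zero_of_notMem_tsupport (fun h' => hx (h.2.2 (tsupport_fderiv_subset ℝ h')))

end IsTest

theorem memLp_restrict_union {p : ℝ≥0∞} {u : E → V} {A B : Set E} (hA : MeasurableSet A)
    (hB : MeasurableSet B) (h1 : MemLp u p (volume.restrict A))
    (h2 : MemLp u p (volume.restrict B)) : MemLp u p (volume.restrict (A ∪ B)) := by
  rw [← memLp_indicator_iff_restrict (hA.union hB)]
  have e : (A ∪ B).indicator u = A.indicator u + (B \ A).indicator u := by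
    rw [← union_sdiff_self, indicator_union_of_disjoint disjoint_sdiff_right]; rfl
  rw [e]
  refine ((memLp_indicator_iff_restrict hA).2 h1).add
    ((memLp_indicator_iff_restrict (hB.diff hA)).2 (h2.mono_measure ?_))
  exact Measure.restrict_mono sdiff_subset le_rfl

namespace LocLp
omit [NormedSpace ℝ V] [NormedSpace ℝ W]
variable {u v : E → V}

theorem mono {U' : Set E} (h : LocLp n U u) (hU : U' ⊆ U) : LocLp n U' u :=
  fun K hK hKU => h K hK (hKU.trans hU)

theorem integrableOn (hn : 1 ≤ n) (h : LocLp n U u) {K : Set E} (hK : IsCompact K)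
    (hKU : K ⊆ U) : IntegrableOn u K := by
  have : IsFiniteMeasure (volume.restrict K) := ⟨by simpa using hK.measure_lt_top⟩
  exact (h K hK hKU).integrable (by exact_mod_cast hn)

theorem locallyIntegrableOn (hn : 1 ≤ n) (h : LocLp n U u) (hU : IsOpen U) :
    LocallyIntegrableOn u U :=
  (locallyIntegrableOn_iff hU.isLocallyClosed).2 fun _ hKU hK => h.integrableOn hn hK hKU

theorem locallyIntegrable (hn : 1 ≤ n) (h : LocLp n univ u) : LocallyIntegrable u :=
  locallyIntegrableOn_univ.1 (h.locallyIntegrableOn hn isOpen_univ)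

theorem aestronglyMeasurable (hn : 1 ≤ n) (h : LocLp n U u) (hU : IsOpen U) :
    AEStronglyMeasurable u (volume.restrict U) :=
  (h.locallyIntegrableOn hn hU).aestronglyMeasurable

theorem add (h1 : LocLp n U u) (h2 : LocLp n U v) : LocLp n U (fun x => u x + v x) :=
  fun K hK hKU => (h1 K hK hKU).add (h2 K hK hKU)

theorem neg (h1 : LocLp n U u) : LocLp n U (fun x => -u x) :=
  fun K hK hKU => (h1 K hK hKU).neg

theorem sub (h1 : LocLp n U u) (h2 : LocLp n U v) : LocLp n U (fun x => u x - v x) :=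
  fun K hK hKU => (h1 K hK hKU).sub (h2 K hK hKU)

theorem of_memLp (h : MemLp u n volume) : LocLp n U u := fun K _ _ => h.restrict K

theorem of_continuousOn (h : ContinuousOn u U) : LocLp n U u := by
  intro K hK hKU
  have : IsFiniteMeasure (volume.restrict K) := ⟨by simpa using hK.measure_lt_top⟩
  obtain ⟨C, hC⟩ := hK.exists_bound_of_continuousOn (h.mono hKU)
  refine MemLp.of_bound ((h.mono hKU).aestronglyMeasurable_of_isCompact hK hK.measurableSet) C ?_
  exact (ae_restrict_mem hK.measurableSet).mono hC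

theorem congr (h : LocLp n U u) (huv : ∀ᵐ x, x ∈ U → u x = v x) : LocLp n U v := by
  intro K hK hKU
  refine (h K hK hKU).ae_eq ?_
  filter_upwards [ae_restrict_mem hK.measurableSet, ae_restrict_of_ae huv] with x hx h'
    using h' (hKU hx)

/-- domination by a continuous multiple -/
theorem of_le_mul {w : E → W} (h : LocLp n U u) {c : E → ℝ} (hc : ContinuousOn c U)
    (hw : ∀ K, IsCompact K → K ⊆ U → AEStronglyMeasurable w (volume.restrict K))
    (hle : ∀ᵐ x, x ∈ U → ‖w x‖ ≤ c x * ‖u x‖) : LocLp n U w := by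
  intro K hK hKU
  obtain ⟨C, hC⟩ := hK.exists_bound_of_continuousOn (hc.mono hKU)
  refine (h K hK hKU).of_le_mul (c := C) (hw K hK hKU) ?_
  filter_upwards [ae_restrict_mem hK.measurableSet, ae_restrict_of_ae hle] with x hx h'
  exact (h' (hKU hx)).trans (mul_le_mul_of_nonneg_right
    ((le_abs_self _).trans (hC x hx)) (norm_nonneg _))

theorem union [NormedSpace ℝ V] {O₁ O₂ : Set E} (h₁ : IsOpen O₁) (h₂ : IsOpen O₂) (a : LocLp n O₁ u)
    (b : LocLp n O₂ u) : LocLp n (O₁ ∪ O₂) u := by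
  intro K hK hKU
  obtain ⟨K₁, K₂, c1, c2, s1, s2, rfl⟩ := hK.binary_compact_cover h₁ h₂ hKU
  exact memLp_restrict_union c1.measurableSet c2.measurableSet (a _ c1 s1) (b _ c2 s2)

end LocLp

theorem LocLp.clm {u : E → V} (h : LocLp n U u) (L : V →L[ℝ] W) :
    LocLp n U (fun x => L (u x)) := fun K hK hKU => L.comp_memLp' (h K hK hKU)

theorem LocLp.apply {D : E → E →L[ℝ] V} (h : LocLp n U D) (e : E) :
    LocLp n U (fun x => D x e) := h.clm (ContinuousLinearMap.apply ℝ V e)

theorem LocLp.smul {u : E → V} (h : LocLp n U u) {ζ : E → ℝ} (hζ : ContinuousOn ζ U) :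
    LocLp n U (fun x => ζ x • u x) := by
  refine h.of_le_mul hζ.norm (fun K hK hKU => ?_) (Eventually.of_forall fun x _ => ?_)
  · exact ((hζ.mono hKU).aestronglyMeasurable hK.measurableSet).smul (h K hK hKU).1
  · rw [norm_smul]

theorem LocLp.smulRight {u : E → V} (h : LocLp n U u) {ζ : E → E →L[ℝ] ℝ}
    (hζ : ContinuousOn ζ U) : LocLp n U (fun x => (ζ x).smulRight (u x)) := by
  refine h.of_le_mul hζ.norm (fun K hK hKU => ?_) (Eventually.of_forall fun x _ => ?_)
  · have h1 := (hζ.mono hKU).aestronglyMeasurable hK.measurableSet (μ := volume)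
    exact (ContinuousLinearMap.smulRightL ℝ E V).aestronglyMeasurable_comp₂ h1 (h K hK hKU).1
  · rw [ContinuousLinearMap.norm_smulRight_apply]

theorem LocLp.integrable_smul (hn : 1 ≤ n) {u : E → V} (h : LocLp n U u) {ψ : E → ℝ}
    (hψ : Continuous ψ) (hc : HasCompactSupport ψ) (hs : tsupport ψ ⊆ U) :
    Integrable (fun x => ψ x • u x) := by
  have h1 : IntegrableOn (fun x => ψ x • u x) (tsupport ψ) :=
    (h.smul hψ.continuousOn).integrableOn hn hc hs
  refine (integrableOn_iff_integrable_of_support_subset ?_).1 h1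
  intro x hx
  by_contra h'
  exact hx (by simp [image_eq_zero_of_notMem_tsupport h'])

theorem LocLp.integrable_test (hn : 1 ≤ n) {u : E → V} (h : LocLp n U u) {φ : E → ℝ}
    (hφ : IsTest U φ) : Integrable (fun x => φ x • u x) :=
  h.integrable_smul hn hφ.continuous hφ.2.1 hφ.2.2

theorem LocLp.integrable_dtest (hn : 1 ≤ n) {u : E → V} (h : LocLp n U u) {φ : E → ℝ}
    (hφ : IsTest U φ) (e : E) : Integrable (fun x => fderiv ℝ φ x e • u x) :=
  h.integrable_smul hn (hφ.continuous_fderiv_apply e) (hφ.2.1.fderiv_apply ℝ e)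
    ((tsupport_fderiv_apply_subset ℝ e).trans hφ.2.2)

namespace WD
variable {u v : E → V} {D D' : E → E →L[ℝ] V}

theorem mono {U' : Set E} (h : WD n U u D) (hU : U' ⊆ U) : WD n U' u D :=
  ⟨h.1.mono hU, h.2.1.mono hU, fun φ hφ => h.2.2 φ (hφ.mono hU)⟩

theorem congr (h : WD n U u D) (h1 : ∀ᵐ x, x ∈ U → u x = v x) (h2 : ∀ᵐ x, x ∈ U → D x = D' x) :
    WD n U v D' := by
  refine ⟨h.1.congr h1, h.2.1.congr h2, fun φ hφ e => ?_⟩
  have := h.2.2 φ hφ e
  rw [← integral_congr_ae (f := fun x => fderiv ℝ φ x e • u x), this,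
    integral_congr_ae (f := fun x => φ x • D x e)]
  · filter_upwards [h2] with x hx
    by_cases hxU : x ∈ U
    · rw [hx hxU]
    · simp [hφ.zero_of_notMem hxU]
  · filter_upwards [h1] with x hx
    by_cases hxU : x ∈ U
    · rw [hx hxU]
    · simp [hφ.fderiv_zero_of_notMem hxU]

theorem congr' (h : WD n U u D) (h1 : ∀ x ∈ U, u x = v x) (h2 : ∀ x ∈ U, D x = D' x) :
    WD n U v D' := h.congr (Eventually.of_forall h1) (Eventually.of_forall h2)

theorem add (hn : 1 ≤ n) (h1 : WD n U u D) (h2 : WD n U v D') :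
    WD n U (fun x => u x + v x) (fun x => D x + D' x) := by
  refine ⟨h1.1.add h2.1, h1.2.1.add h2.2.1, fun φ hφ e => ?_⟩
  simp only [smul_add, add_apply]
  rw [integral_add (h1.1.integrable_dtest hn hφ e) (h2.1.integrable_dtest hn hφ e),
    integral_add ((h1.2.1.apply e).integrable_test hn hφ) ((h2.2.1.apply e).integrable_test hn hφ),
    h1.2.2 φ hφ e, h2.2.2 φ hφ e, neg_add]

theorem const_smul (h1 : WD n U u D) (c : ℝ) :
    WD n U (fun x => c • u x) (fun x => c • D x) := by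
  refine ⟨h1.1.smul continuousOn_const, h1.2.1.smul continuousOn_const, fun φ hφ e => ?_⟩
  simp only [smul_apply, smul_comm _ c]
  rw [integral_smul, integral_smul, h1.2.2 φ hφ e, smul_neg]

theorem neg (h1 : WD n U u D) : WD n U (fun x => -u x) (fun x => -D x) := by
  simpa using h1.const_smul (-1)

theorem sub (hn : 1 ≤ n) (h1 : WD n U u D) (h2 : WD n U v D') :
    WD n U (fun x => u x - v x) (fun x => D x - D' x) := by
  simpa [sub_eq_add_neg] using h1.add hn h2.neg

theorem clm [CompleteSpace V] [CompleteSpace W] (hn : 1 ≤ n) (h : WD n U u D) (L : V →L[ℝ] W) :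
    WD n U (fun x => L (u x)) (fun x => L.comp (D x)) := by
  refine ⟨h.1.clm L, h.2.1.clm ((ContinuousLinearMap.compL ℝ E V W) L), fun φ hφ e => ?_⟩
  simp only [ContinuousLinearMap.comp_apply, ← L.map_smul]
  rw [L.integral_comp_comm (h.1.integrable_dtest hn hφ e),
    L.integral_comp_comm ((h.2.1.apply e).integrable_test hn hφ), h.2.2 φ hφ e, map_neg]

theorem of_contDiffOn (hn : 1 ≤ n) (hU : IsOpen U) (h : ContDiffOn ℝ 1 u U) :
    WD n U u (fderiv ℝ u) := by
  have c1 : LocLp n U u := .of_continuousOn h.continuousOn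
  have c2 : LocLp n U (fderiv ℝ u) :=
    .of_continuousOn (h.continuousOn_fderiv_of_isOpen hU le_rfl)
  refine ⟨c1, c2, fun φ hφ e => ?_⟩
  rw [integral_smul_fderiv_eq_neg_fderiv_smul_of_integrable (c1.integrable_dtest hn hφ e)
    ((c2.apply e).integrable_test hn hφ) (c1.integrable_test hn hφ)
    (fun x _ => hφ.differentiable x)
    (fun x hx => (h.differentiableOn one_ne_zero).differentiableAt (hU.mem_nhds (hφ.2.2 hx))),
    neg_neg]

theorem of_contDiff (hn : 1 ≤ n) (h : ContDiff ℝ 1 u) : WD n U u (fderiv ℝ u) :=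
  (of_contDiffOn hn isOpen_univ h.contDiffOn).mono (subset_univ _)

theorem const (hn : 1 ≤ n) (c : V) : WD n U (fun _ => c) (fun _ => (0 : E →L[ℝ] V)) := by
  have := of_contDiff (U := U) hn (contDiff_const (𝕜 := ℝ) (E := E) (c := c))
  exact this.congr' (fun _ _ => rfl) (fun _ _ => by simp)

theorem add_const (hn : 1 ≤ n) (h : WD n U u D) (c : V) : WD n U (fun x => u x + c) D := by
  simpa using h.add hn (const hn c)

theorem sub_const (hn : 1 ≤ n) (h : WD n U u D) (c : V) : WD n U (fun x => u x - c) D := by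
  simpa using h.sub hn (const hn c)

/-- product rule with a smooth function -/
theorem smul (hn : 1 ≤ n) (h : WD n U u D) {ζ : E → ℝ} (hζ : ContDiff ℝ ∞ ζ) :
    WD n U (fun x => ζ x • u x) (fun x => ζ x • D x + (fderiv ℝ ζ x).smulRight (u x)) := by
  have cz : Continuous (fderiv ℝ ζ) := hζ.continuous_fderiv (by simp)
  have l1 := h.2.1.smul hζ.continuous.continuousOn
  have l2 := h.1.smulRight cz.continuousOn
  refine ⟨h.1.smul hζ.continuous.continuousOn, l1.add l2, fun φ hφ e => ?_⟩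
  have hψ := hφ.mul_left hζ
  have key := h.2.2 _ hψ e
  have hd : ∀ x, fderiv ℝ (fun x => ζ x * φ x) x e = ζ x * fderiv ℝ φ x e + φ x * fderiv ℝ ζ x e := by
    intro x
    rw [fderiv_fun_mul (hζ.differentiable (by simp) x) (hφ.differentiable x)]
    simp
  simp only [hd, add_smul] at key
  have i1 := (h.1.smul hζ.continuous.continuousOn).integrable_dtest hn hφ e
  have i2 := (l2.apply e).integrable_test hn hφ
  have i3 := (l1.apply e).integrable_test hn hφ
  simp only [add_apply, smul_add]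
  rw [integral_add i3 i2]
  rw [integral_add (i1.congr (Eventually.of_forall fun x => by simp [smul_smul, mul_comm]))
    (i2.congr (Eventually.of_forall fun x => by simp [smul_smul]))] at key
  have e1 : ∫ x, fderiv ℝ φ x e • ζ x • u x = ∫ x, (ζ x * fderiv ℝ φ x e) • u x :=
    integral_congr_ae (Eventually.of_forall fun x => by simp [smul_smul, mul_comm])
  have e2 : ∫ x, φ x • ((fderiv ℝ ζ x).smulRight (u x)) e = ∫ x, (φ x * fderiv ℝ ζ x e) • u x :=
    integral_congr_ae (Eventually.of_forall fun x => by simp [smul_smul])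
  have e3 : ∫ x, φ x • (ζ x • D x) e = ∫ x, (ζ x * φ x) • D x e :=
    integral_congr_ae (Eventually.of_forall fun x => by simp [smul_smul, mul_comm])
  rw [e1, e2, e3, neg_add, ← key]
  abel

theorem union (hn : 1 ≤ n) {O₁ O₂ : Set E} (h₁ : IsOpen O₁) (h₂ : IsOpen O₂) (a : WD n O₁ u D)
    (b : WD n O₂ u D) : WD n (O₁ ∪ O₂) u D := by
  have l1 := a.1.union h₁ h₂ b.1
  have l2 := a.2.1.union h₁ h₂ b.2.1
  refine ⟨l1, l2, fun φ hφ e => ?_⟩
  have hK : IsCompact (tsupport φ \ O₂) := hφ.2.1.isCompact.diff h₂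
  obtain ⟨χ, hχ, h1, -⟩ := exists_cutoff hK h₁ (fun x hx => (hφ.2.2 hx.1).resolve_right hx.2)
  have t1 : IsTest O₁ (fun x => φ x * χ x) := hχ.mul_left hφ.1
  have t2' : IsTest (O₁ ∪ O₂) (fun x => (1 - χ x) * φ x) := hφ.mul_left (contDiff_const.sub hχ.1)
  have t2 : IsTest O₂ (fun x => (1 - χ x) * φ x) := by
    refine ⟨t2'.1, t2'.2.1, fun x hx => ?_⟩
    by_contra hx2
    have hxφ : x ∈ tsupport φ := tsupport_mul_subset_right hx
    have : ∀ᶠ y in 𝓝 x, χ y = 1 := h1.filter_mono (nhds_le_nhdsSet (show x ∈ tsupport φ \ O₂ from ⟨hxφ, hx2⟩))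
    refine (notMem_tsupport_iff_eventuallyEq.2 ?_) hx
    filter_upwards [this] with y hy
    simp [hy]
  have k1 := a.2.2 _ t1 e
  have k2 := b.2.2 _ t2 e
  have hφe : φ = fun x => φ x * χ x + (1 - χ x) * φ x := by funext x; ring
  have hd : ∀ x, fderiv ℝ φ x e = fderiv ℝ (fun x => φ x * χ x) x e +
      fderiv ℝ (fun x => (1 - χ x) * φ x) x e := by
    intro x
    conv_lhs => rw [hφe]
    rw [fderiv_fun_add (t1.differentiable x) (t2.differentiable x)]
    rfl
  have e1 : ∫ x, φ x • D x e = ∫ x, ((φ x * χ x) • D x e + ((1 - χ x) * φ x) • D x e) :=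
    integral_congr_ae (Eventually.of_forall fun x => by simp only [← add_smul]; congr 1; ring)
  simp only [hd, add_smul]
  rw [e1, integral_add (a.1.integrable_dtest hn t1 e) (b.1.integrable_dtest hn t2 e),
    integral_add ((a.2.1.apply e).integrable_test hn t1) ((b.2.1.apply e).integrable_test hn t2),
    k1, k2, neg_add]

theorem empty : WD n (∅ : Set E) u D := by
  refine ⟨fun K _ hK => ?_, fun K _ hK => ?_, fun φ hφ e => ?_⟩
  · simp [subset_empty_iff.1 hK]
  · simp [subset_empty_iff.1 hK]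
  · simp [hφ.zero_of_notMem (notMem_empty _), hφ.fderiv_zero_of_notMem (notMem_empty _)]

/-- being a weak derivative is a local property -/
theorem of_local (hn : 1 ≤ n)
    (h : ∀ x ∈ U, ∃ O : Set E, IsOpen O ∧ x ∈ O ∧ WD n O u D) : WD n U u D := by
  have key : ∀ K : Set E, IsCompact K → K ⊆ U → ∃ O : Set E, IsOpen O ∧ K ⊆ O ∧ WD n O u D := by
    intro K hK hKU
    refine hK.induction_on (p := fun s => ∃ O : Set E, IsOpen O ∧ s ⊆ O ∧ WD n O u D)
      ⟨∅, isOpen_empty, Subset.rfl, empty⟩ ?_ ?_ ?_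
    · rintro s t hst ⟨O, h1, h2, h3⟩
      exact ⟨O, h1, hst.trans h2, h3⟩
    · rintro s t ⟨O, h1, h2, h3⟩ ⟨O', h1', h2', h3'⟩
      exact ⟨O ∪ O', h1.union h1', union_subset_union h2 h2', union hn h1 h1' h3 h3'⟩
    · intro x hx
      obtain ⟨O, h1, h2, h3⟩ := h x (hKU hx)
      exact ⟨O, mem_nhdsWithin_of_mem_nhds (h1.mem_nhds h2), O, h1, Subset.rfl, h3⟩
  refine ⟨fun K hK hKU => ?_, fun K hK hKU => ?_, fun φ hφ e => ?_⟩
  · obtain ⟨O, -, h2, h3⟩ := key K hK hKU
    exact h3.1 K hK h2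
  · obtain ⟨O, -, h2, h3⟩ := key K hK hKU
    exact h3.2.1 K hK h2
  · obtain ⟨O, -, h2, h3⟩ := key _ hφ.2.1 hφ.2.2
    exact h3.2.2 φ ⟨hφ.1, hφ.2.1, h2⟩ e

/-- gluing with a constant outside a relatively closed set -/
theorem glue_const (hn : 1 ≤ n) {U' F : Set E} (hU : IsOpen U) (hU' : IsOpen U') (hF : IsClosed F)
    (hFU : F ∩ U ⊆ U') (h : WD n U' u D) (c : V) (h0 : ∀ x ∈ U \ F, u x = c)
    (h0' : ∀ x ∈ U \ F, D x = 0) : WD n U u D := by
  refine of_local hn fun x hx => ?_
  by_cases hxF : x ∈ F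
  · exact ⟨U', hU', hFU ⟨hxF, hx⟩, h⟩
  · exact ⟨U \ F, hU.sdiff hF, ⟨hx, hxF⟩, (const hn c).congr' (fun y hy => (h0 y hy).symm)
      (fun y hy => (h0' y hy).symm)⟩

/-- uniqueness of the weak derivative -/
theorem unique [CompleteSpace V] (hn : 1 ≤ n) (hU : IsOpen U) (h1 : WD n U u D)
    (h2 : WD n U u D') : ∀ᵐ x, x ∈ U → D x = D' x := by
  have key : ∀ e : E, ∀ᵐ x, x ∈ U → D x e - D' x e = 0 := by
    intro e
    refine hU.ae_eq_zero_of_integral_contDiff_smul_eq_zero
      (((h1.2.1.apply e).sub (h2.2.1.apply e)).locallyIntegrableOn hn hU) fun g a b c => ?_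
    have hφ : IsTest U g := ⟨a, b, c⟩
    simp only [smul_sub]
    rw [integral_sub ((h1.2.1.apply e).integrable_test hn hφ)
      ((h2.2.1.apply e).integrable_test hn hφ), sub_eq_zero, ← neg_inj, ← h1.2.2 g hφ e,
      ← h2.2.2 g hφ e]
  let b := Module.finBasis ℝ E
  filter_upwards [ae_all_iff.2 fun i => key (b i)] with x hx hxU
  exact ContinuousLinearMap.coe_injective (b.ext fun i => sub_eq_zero.1 (hx i hxU))

/-- cutting off gives a global pair -/
theorem globalize (hn : 1 ≤ n) (hU : IsOpen U) (h : WD n U u D) {χ : E → ℝ} (hχ : IsTest U χ) :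
    WD n univ (fun x => χ x • u x) (fun x => χ x • D x + (fderiv ℝ χ x).smulRight (u x)) := by
  refine glue_const hn isOpen_univ hU (isClosed_tsupport χ) (fun x hx => hχ.2.2 hx.1)
    (h.smul hn hχ.1) 0 (fun x hx => ?_) (fun x hx => ?_)
  · simp [image_eq_zero_of_notMem_tsupport hx.2]
  · have : fderiv ℝ χ x = 0 :=
      image_eq_zero_of_notMem_tsupport (fun h' => hx.2 (tsupport_fderiv_subset ℝ h'))
    simp [image_eq_zero_of_notMem_tsupport hx.2, this]

end WD

omit [NormedSpace ℝ V] in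
theorem LocLp.memLp_of_support {u : E → V} (h : LocLp n U u) {K : Set E} (hK : IsCompact K)
    (hKU : K ⊆ U) (h0 : ∀ x ∉ K, u x = 0) : MemLp u n volume := by
  have := (memLp_indicator_iff_restrict hK.measurableSet).2 (h K hK hKU)
  rwa [indicator_eq_self.2 (fun x hx => by by_contra h'; exact hx (h0 x h'))] at this

/-- Every weak pair agrees near a compact set with a compactly supported global pair. -/
theorem WD.exists_global (hn : 1 ≤ n) (hU : IsOpen U) {u : E → V} {D : E → E →L[ℝ] V}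
    (h : WD n U u D) {K : Set E} (hK : IsCompact K) (hKU : K ⊆ U) :
    ∃ (u' : E → V) (D' : E → E →L[ℝ] V) (K' O : Set E), WD n univ u' D' ∧ MemLp u' n volume ∧
      MemLp D' n volume ∧ IsCompact K' ∧ K' ⊆ U ∧ IsOpen O ∧ K ⊆ O ∧ O ⊆ K' ∧
      (∀ x ∉ K', u' x = 0) ∧ (∀ x ∉ K', D' x = 0) ∧ (∀ x ∈ O, u' x = u x) ∧
      (∀ x ∈ O, D' x = D x) ∧ (ContinuousOn u U → Continuous u') := by
  obtain ⟨χ, hχ, h1, -⟩ := exists_cutoff hK hU hKU
  obtain ⟨O, hO, hKO, hO1⟩ := eventually_nhdsSet_iff_exists.1 h1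
  have hg := h.globalize hn hU hχ
  have z1 : ∀ x ∉ tsupport χ, χ x • u x = 0 := fun x hx => by
    simp [image_eq_zero_of_notMem_tsupport hx]
  have z2 : ∀ x ∉ tsupport χ, χ x • D x + (fderiv ℝ χ x).smulRight (u x) = 0 := fun x hx => by
    have : fderiv ℝ χ x = 0 :=
      image_eq_zero_of_notMem_tsupport (fun h' => hx (tsupport_fderiv_subset ℝ h'))
    simp [image_eq_zero_of_notMem_tsupport hx, this]
  refine ⟨_, _, tsupport χ, O, hg, hg.1.memLp_of_support hχ.2.1 (subset_univ _) z1,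
    hg.2.1.memLp_of_support hχ.2.1 (subset_univ _) z2, hχ.2.1, hχ.2.2, hO, hKO,
    fun x hx => subset_tsupport _ (by simp [hO1 x hx]), z1, z2,
    fun x hx => by simp [hO1 x hx], fun x hx => ?_, fun hc => ?_⟩
  · have : fderiv ℝ χ x = 0 := by
      have : χ =ᶠ[𝓝 x] fun _ => 1 := eventually_of_mem (hO.mem_nhds hx) hO1
      rw [this.fderiv_eq]; simp
    simp [hO1 x hx, this]
  · refine continuous_of_tsupport fun x hx => ?_
    have hxU : x ∈ U := hχ.2.2 (tsupport_smul_subset_left _ _ hx)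
    exact (hχ.continuous.continuousAt).smul (hc.continuousAt (hU.mem_nhds hxU))

end Pool.Agent.Lib.Sob
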