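import Mathlib

/-! Sobolev classes `W^{1,n}_loc` over a finite-dimensional real inner product space `E` with
Lebesgue measure; the exponent `n` is any natural number, independent of the dimension. -/

open MeasureTheory Set
open scoped ContDiff RealInnerProductSpace

noncomputable section
namespace Pool.Agent.Lib.Sob

variable {E : Type*} [NormedAddCommGroup E] [InnerProductSpace ℝ E] [FiniteDimensional ℝ E]
  [MeasurableSpace E] [BorelSpace E] {V : Type*} [NormedAddCommGroup V] [NormedSpace ℝ V]

/-- Smooth functions with compact support in `U`. -/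
def IsTest (U : Set E) (φ : E → ℝ) : Prop :=
  ContDiff ℝ ∞ φ ∧ HasCompactSupport φ ∧ tsupport φ ⊆ U

/-- `u ∈ L^n_loc(U)`. -/
def LocLp (n : ℕ) (U : Set E) (u : E → V) : Prop :=
  ∀ K : Set E, IsCompact K → K ⊆ U → MemLp u n (volume.restrict K)

/-- `u ∈ W^{1,n}_loc(U)` with weak derivative `D`. -/
def WD (n : ℕ) (U : Set E) (u : E → V) (D : E → E →L[ℝ] V) : Prop :=
  LocLp n U u ∧ LocLp n U D ∧
    ∀ φ : E → ℝ, IsTest U φ → ∀ e : E, ∫ x, fderiv ℝ φ x e • u x = -∫ x, φ x • D x e

end Pool.Agent.Lib.Sob
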