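import Pool.Agent.Lib.Sob.Poinc

/-! The Loewner (capacity versus content) estimate for the conformal exponent. -/

open MeasureTheory Set Filter Topology Metric Module
open scoped ContDiff RealInnerProductSpace ENNReal

noncomputable section
namespace Pool.Agent.Lib.Sob

variable {E : Type*} [NormedAddCommGroup E] [InnerProductSpace ℝ E] [FiniteDimensional ℝ E]
  [MeasurableSpace E] [BorelSpace E] {n : ℕ} {U : Set E} {w : E → ℝ} {D : E → E →L[ℝ] ℝ}

/-- `c` approximates `w` on the closed ball. -/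
def Appr (n : ℕ) (w : E → ℝ) (D : E → E →L[ℝ] ℝ) (p : E) (r c : ℝ) : Prop :=
  ∫⁻ x in closedBall p r, ‖w x - c‖ₑ ^ n ≤
    ENNReal.ofReal r ^ n * 4 ^ n * ∫⁻ x in closedBall p r, ‖D x‖ₑ ^ n

theorem WD.exists_appr (hn : 1 ≤ n) (hE : finrank ℝ E = n) (hU : IsOpen U) (h : WD n U w D)
    {p : E} {r : ℝ} (hB : closedBall p r ⊆ U) : ∃ c, Appr n w D p r c := by
  obtain ⟨c, hc⟩ := h.poincare hn hU (isCompact_closedBall p r) (convex_closedBall p r) hB
    (d := 2 * r) (fun x hx y hy => by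
      linarith [dist_triangle_right x y p, mem_closedBall.1 hx, mem_closedBall.1 hy])
  refine ⟨c, hc.trans (le_of_eq ?_)⟩
  rw [hE, ENNReal.ofReal_mul (by norm_num), mul_pow, show (4 : ℝ≥0∞) = 2 * 2 by norm_num, mul_pow]
  simp only [ENNReal.ofReal_ofNat]
  ring

variable (E) in
/-- The constant of the comparison lemma. -/
def cmpConst (n : ℕ) : ℝ := 2 * 16 ^ n / (volume (closedBall (0 : E) 1)).toReal

theorem unitBall_pos : 0 < (volume (closedBall (0 : E) 1)).toReal :=
  ENNReal.toReal_pos (measure_closedBall_pos _ _ one_pos).ne' measure_closedBall_lt_top.ne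

theorem cmpConst_pos : 0 < cmpConst E n := div_pos (by positivity) unitBall_pos

/-- A point of the small ball where `w` is close to the constant. -/
theorem exists_point_le (hE : finrank ℝ E = n) {p : E} {r : ℝ} (hr : 0 < r) {F : E → ℝ≥0∞}
    (hF : AEMeasurable F (volume.restrict (closedBall p r))) {M e : ℝ≥0∞} (hM : M ≠ ⊤)
    (he : e ≠ ⊤) (h : ∫⁻ x in closedBall p r, F x ≤ ENNReal.ofReal r ^ n * M * e) :
    ∃ x ∈ closedBall p r, F x ≠ ⊤ ∧
      (F x).toReal ≤ M.toReal / (volume (closedBall (0 : E) 1)).toReal * e.toReal := by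
  obtain ⟨x, hx, h1⟩ := exists_le_setLAverage (measure_closedBall_pos volume p hr).ne'
    measure_closedBall_lt_top.ne hF
  rw [setLAverage_eq, Measure.addHaar_closedBall' _ _ hr.le, hE,
    ENNReal.ofReal_pow hr.le] at h1
  have h0 : volume (closedBall (0 : E) 1) ≠ 0 := (measure_closedBall_pos _ _ one_pos).ne'
  have h2 : F x ≤ M / volume (closedBall (0 : E) 1) * e := by
    refine h1.trans (ENNReal.div_le_of_le_mul (h.trans (le_of_eq ?_)))
    rw [div_eq_mul_inv]
    calc _ = ENNReal.ofReal r ^ n * M * e *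
          ((volume (closedBall (0 : E) 1))⁻¹ * volume (closedBall (0 : E) 1)) := by
          rw [ENNReal.inv_mul_cancel h0 measure_closedBall_lt_top.ne, mul_one]
      _ = _ := by ring
  have h3 : M / volume (closedBall (0 : E) 1) * e ≠ ⊤ :=
    ENNReal.mul_ne_top (ENNReal.div_ne_top hM h0) he
  refine ⟨x, hx, ne_top_of_le_ne_top h3 h2, ?_⟩
  simpa [ENNReal.toReal_div] using ENNReal.toReal_mono h3 h2

theorem WD.energy_ne_top (hn : 1 ≤ n) (h : WD n U w D) {K : Set E} (hK : IsCompact K)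
    (hKU : K ⊆ U) : ∫⁻ x in K, ‖D x‖ₑ ^ n ≠ ⊤ :=
  (lintegral_pow_lt_top hn (h.2.1 K hK hKU)).ne

theorem WD.appr_cmp (hn : 1 ≤ n) (hE : finrank ℝ E = n) (h : WD n U w D) {p p' : E}
    {r r' c c' : ℝ} (hr' : 0 < r') (hrr : r ≤ 2 * r') (hB : closedBall p r ⊆ U)
    (hsub : closedBall p' r' ⊆ closedBall p r) (a : Appr n w D p r c) (a' : Appr n w D p' r' c') :
    |c' - c| ^ n ≤ cmpConst E n * (∫⁻ x in closedBall p r, ‖D x‖ₑ ^ n).toReal := by
  have mw := (h.1 _ (isCompact_closedBall p' r') (hsub.trans hB)).1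
  have m1 : AEMeasurable (fun x => ‖w x - c‖ₑ ^ n) (volume.restrict (closedBall p' r')) :=
    (mw.sub aestronglyMeasurable_const).enorm.pow_const n
  have m2 : AEMeasurable (fun x => ‖w x - c'‖ₑ ^ n) (volume.restrict (closedBall p' r')) :=
    (mw.sub aestronglyMeasurable_const).enorm.pow_const n
  obtain ⟨x, -, h1, h2⟩ := exists_point_le hE hr' (F := fun x => 2 ^ n * (‖w x - c‖ₑ ^ n +
      ‖w x - c'‖ₑ ^ n)) ((m1.add m2).const_mul _) (M := 2 * 16 ^ n)
      (ENNReal.mul_ne_top (by simp) (by simp))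
      (h.energy_ne_top hn (isCompact_closedBall p r) hB) (by
    rw [lintegral_const_mul' _ _ (by simp), lintegral_add_left' m1]
    set e := ∫⁻ x in closedBall p r, ‖D x‖ₑ ^ n
    have b1 : ∫⁻ x in closedBall p' r', ‖w x - c‖ₑ ^ n ≤ ENNReal.ofReal r' ^ n * 8 ^ n * e := by
      refine (lintegral_mono_set hsub).trans (a.trans ?_)
      calc ENNReal.ofReal r ^ n * 4 ^ n * e ≤ ENNReal.ofReal (r' * 2) ^ n * 4 ^ n * e := by
            gcongr; linarith
        _ = _ := by
            rw [ENNReal.ofReal_mul hr'.le, mul_pow, show (8 : ℝ≥0∞) = 2 * 4 by norm_num, mul_pow]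
            simp only [ENNReal.ofReal_ofNat]
            ring
    have b2 : ∫⁻ x in closedBall p' r', ‖w x - c'‖ₑ ^ n ≤ ENNReal.ofReal r' ^ n * 8 ^ n * e := by
      refine a'.trans ?_
      gcongr
      · norm_num
      · exact lintegral_mono_set hsub
    refine (mul_le_mul_right (add_le_add b1 b2) _).trans (le_of_eq ?_)
    rw [show (16 : ℝ≥0∞) = 2 * 8 by norm_num, mul_pow]
    ring)
  have h3 : ‖c' - c‖ₑ ^ n ≤ 2 ^ n * (‖w x - c‖ₑ ^ n + ‖w x - c'‖ₑ ^ n) := by
    have := enorm_sub_pow_le n (w x - c) (w x - c')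
    rwa [show w x - c - (w x - c') = c' - c by ring] at this
  have h4 := (ENNReal.toReal_mono h1 h3).trans h2
  simpa [cmpConst] using h4

theorem WD.appr_point (hn : 1 ≤ n) (hE : finrank ℝ E = n) (h : WD n U w D) {p : E} {r c : ℝ}
    (hr : 0 < r) (hB : closedBall p r ⊆ U) (a : Appr n w D p r c) :
    ∃ x ∈ closedBall p r,
      |w x - c| ^ n ≤ cmpConst E n * (∫⁻ x in closedBall p r, ‖D x‖ₑ ^ n).toReal := by
  have mw := (h.1 _ (isCompact_closedBall p r) hB).1
  obtain ⟨x, hx, -, h2⟩ := exists_point_le hE hr (F := fun x => ‖w x - c‖ₑ ^ n)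
    ((mw.sub aestronglyMeasurable_const).enorm.pow_const n) (M := 2 * 16 ^ n)
    (ENNReal.mul_ne_top (by simp) (by simp)) (h.energy_ne_top hn (isCompact_closedBall p r) hB)
    (a.trans (by
      gcongr
      calc (4 : ℝ≥0∞) ^ n ≤ 16 ^ n := by gcongr; norm_num
        _ ≤ 2 * 16 ^ n := le_mul_of_one_le_left' (by norm_num)))
  exact ⟨x, hx, by simpa [cmpConst] using h2⟩

/-- Telescoping along dyadic balls. -/
theorem WD.telescope (hn : 1 ≤ n) (hE : finrank ℝ E = n) (hU : IsOpen U) (h : WD n U w D)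
    {p : E} (hc : ContinuousAt w p) {d κ c₀ : ℝ} (hd : 0 < d) (hκ : 0 ≤ κ)
    (hB : closedBall p d ⊆ U) (a₀ : Appr n w D p d c₀)
    (he : ∀ j : ℕ, cmpConst E n * (∫⁻ x in closedBall p (d / 2 ^ j), ‖D x‖ₑ ^ n).toReal ≤
      κ ^ n / 2 ^ j) : |w p - c₀| ≤ 2 * n * κ := by
  have hn0 : n ≠ 0 := by omega
  have hn' : (1 : ℝ) ≤ n := by exact_mod_cast hn
  have hr : ∀ j : ℕ, 0 < d / 2 ^ j := fun j => by positivity
  have hBj : ∀ j : ℕ, closedBall p (d / 2 ^ j) ⊆ U := fun j =>
    (closedBall_subset_closedBall (div_le_self hd.le (one_le_pow₀ one_le_two))).trans hB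
  have hex : ∀ j : ℕ, ∃ c, Appr n w D p (d / 2 ^ j) c ∧ (j = 0 → c = c₀) := by
    intro j
    rcases eq_or_ne j 0 with rfl | hj
    · exact ⟨c₀, by simpa using a₀, fun _ => rfl⟩
    · obtain ⟨c, hc⟩ := h.exists_appr hn hE hU (hBj j)
      exact ⟨c, hc, fun h => absurd h hj⟩
  choose c hca hc0 using hex
  set q : ℝ := 1 - 1 / (2 * n) with hq
  have hq' : 1 / (2 * (n : ℝ)) ≤ 1 / 2 := by gcongr; linarith
  have q0 : 0 ≤ q := by linarith
  have q1 : q < 1 := by rw [hq]; linarith [show 0 < 1 / (2 * (n : ℝ)) by positivity]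
  have qn : 1 / 2 ≤ q ^ n := by
    have := one_add_mul_le_pow (a := -(1 / (2 * (n : ℝ)))) (by linarith) n
    rw [← sub_eq_add_neg] at this
    refine le_trans (le_of_eq ?_) this
    field_simp; ring
  have root : ∀ (j : ℕ) (t : ℝ), |t| ^ n ≤ κ ^ n / 2 ^ j → |t| ≤ κ * q ^ j := by
    intro j t ht
    refine (pow_le_pow_iff_left₀ (abs_nonneg _) (by positivity) hn0).1 (ht.trans ?_)
    rw [mul_pow, ← pow_mul, mul_comm j n, pow_mul, div_eq_mul_inv, ← inv_pow, ← one_div]
    gcongr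
  have step : ∀ j, dist (c j) (c (j + 1)) ≤ κ * q ^ j := by
    intro j
    rw [dist_comm, Real.dist_eq]
    refine root j _ ((h.appr_cmp hn hE (hr (j + 1)) (le_of_eq ?_) (hBj j)
      (closedBall_subset_closedBall ?_) (hca j) (hca (j + 1))).trans (he j))
    · rw [pow_succ]; field_simp
    · gcongr
      · norm_num
      · omega
  choose x hx hxc using fun j => h.appr_point hn hE (hr j) (hBj j) (hca j)
  have tx : Tendsto x atTop (𝓝 p) := by
    rw [tendsto_iff_dist_tendsto_zero]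
    refine squeeze_zero (fun _ => dist_nonneg) (fun j => mem_closedBall.1 (hx j)) ?_
    exact tendsto_const_nhds.div_atTop (tendsto_pow_atTop_atTop_of_one_lt one_lt_two)
  have tc : Tendsto c atTop (𝓝 (w p)) := by
    have t1 : Tendsto (fun j => w (x j) - c j) atTop (𝓝 0) := by
      refine squeeze_zero_norm (fun j => root j _ ((hxc j).trans (he j))) ?_
      simpa using (tendsto_pow_atTop_nhds_zero_of_lt_one q0 q1).const_mul κ
    simpa using (hc.tendsto.comp tx).sub t1
  have := dist_le_of_le_geometric_of_tendsto₀ q κ q1 step tc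
  rw [hc0 0 rfl, dist_comm, Real.dist_eq] at this
  refine this.trans (le_of_eq ?_)
  rw [hq]; field_simp; ring

/-- One-sided form: a set on which `w` is far from the constant. -/
theorem WD.content (hn : 1 ≤ n) (hE : finrank ℝ E = n) (hU : IsOpen U) (h : WD n U w D)
    (hc : ContinuousOn w U) {z : E} {d l τ c s₀ : ℝ} (hB : closedBall z (2 * d) ⊆ U) (hl : 0 < l)
    (hτ : 0 < τ) (a : Appr n w D z (2 * d) c) (h0 : 0 ≤ s₀) (h1 : s₀ + l ≤ d)
    (hS : ∀ s ∈ Ioo s₀ (s₀ + l), ∃ p, τ ≤ |w p - c| ∧ dist p z = s) :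
    ENNReal.ofReal (τ ^ n * l) ≤ ENNReal.ofReal (8 * (2 * n + 2) ^ n * cmpConst E n * d) *
      ∫⁻ x in closedBall z (2 * d), ‖D x‖ₑ ^ n := by
  have hn0 : n ≠ 0 := by omega
  have hd : 0 < d := by linarith
  have hΛ : 0 < cmpConst E n := cmpConst_pos
  set Λ := cmpConst E n with hΛdef
  set κ : ℝ := τ / (2 * n + 2) with hκ
  have κ0 : 0 < κ := by positivity
  have τκ : τ = (2 * n + 2) * κ := by rw [hκ]; field_simp
  have fin := h.energy_ne_top hn (isCompact_closedBall z (2 * d)) hB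
  set e := ∫⁻ x in closedBall z (2 * d), ‖D x‖ₑ ^ n with he
  by_cases hcase : κ ^ n ≤ Λ * e.toReal
  · rw [← ENNReal.ofReal_toReal fin, ← ENNReal.ofReal_mul (by positivity)]
    refine ENNReal.ofReal_le_ofReal ?_
    rw [τκ, mul_pow]
    calc (2 * n + 2) ^ n * κ ^ n * l ≤ (2 * n + 2) ^ n * (Λ * e.toReal) * (8 * d) := by
          gcongr; linarith
      _ = _ := by ring
  have key : ∀ s ∈ Ioo s₀ (s₀ + l), ∃ (p : E) (r : ℝ), dist p z = s ∧ 0 < r ∧ r ≤ d ∧
      ENNReal.ofReal (κ ^ n * (8 * r)) ≤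
        ENNReal.ofReal (8 * Λ * d) * ∫⁻ x in closedBall p r, ‖D x‖ₑ ^ n := by
    intro s hs
    obtain ⟨p, hp, hpz⟩ := hS s hs
    have sub : closedBall p d ⊆ closedBall z (2 * d) :=
      closedBall_subset_closedBall' (by linarith [hs.2])
    obtain ⟨c₀, a₀⟩ := h.exists_appr hn hE hU (sub.trans hB)
    have b1 : |c₀ - c| ≤ κ := (pow_le_pow_iff_left₀ (abs_nonneg _) κ0.le hn0).1
      ((h.appr_cmp hn hE hd le_rfl hB sub a a₀).trans (not_le.1 hcase).le)
    by_contra hcon
    have b2 := h.telescope hn hE hU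
      (hc.continuousAt (hU.mem_nhds (hB (sub (mem_closedBall_self hd.le))))) hd κ0.le
      (sub.trans hB) a₀ (fun j => ?_)
    · have := abs_sub_le (w p) c₀ c
      nlinarith
    by_contra hj
    have hr : d / 2 ^ j ≤ d := div_le_self hd.le (one_le_pow₀ one_le_two)
    refine hcon ⟨p, d / 2 ^ j, hpz, by positivity, hr, ?_⟩
    have fin' := h.energy_ne_top hn (isCompact_closedBall p (d / 2 ^ j))
      ((closedBall_subset_closedBall hr).trans (sub.trans hB))
    rw [← ENNReal.ofReal_toReal fin', ← ENNReal.ofReal_mul (by positivity)]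
    refine ENNReal.ofReal_le_ofReal ?_
    calc κ ^ n * (8 * (d / 2 ^ j)) = 8 * d * (κ ^ n / 2 ^ j) := by ring
      _ ≤ 8 * d * (Λ * (∫⁻ x in closedBall p (d / 2 ^ j), ‖D x‖ₑ ^ n).toReal) := by
          gcongr; exact (not_le.1 hj).le
      _ = _ := by ring
  choose! p r hp hr hrd hpr using key
  obtain ⟨u, hu, hdisj, hcov⟩ := Vitali.exists_disjoint_subfamily_covering_enlargement_closedBall
    (Ioo s₀ (s₀ + l)) (fun s => s) r d hrd 4 (by norm_num)
  have cu : u.Countable := hdisj.countable_of_nonempty_interior fun s hs =>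
    ⟨s, mem_interior_iff_mem_nhds.2 (closedBall_mem_nhds _ (hr s (hu hs)))⟩
  have hdisj' : u.PairwiseDisjoint fun s => closedBall (p s) (r s) := by
    intro s hs t ht hst
    refine Set.disjoint_left.2 fun x h1 h2 =>
      (Set.disjoint_left.1 (hdisj hs ht hst) : ∀ ⦃a⦄, _) (show dist x z ∈ _ from ?_) ?_
    · rw [mem_closedBall, Real.dist_eq, ← hp s (hu hs)]
      refine (abs_dist_sub_le _ _ _).trans ?_
      rw [hp s (hu hs)]; exact h1
    · rw [mem_closedBall, Real.dist_eq, ← hp t (hu ht)]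
      refine (abs_dist_sub_le _ _ _).trans ?_
      rw [hp t (hu ht)]; exact h2
  set ν : Measure E := volume.withDensity fun x => ‖D x‖ₑ ^ n
  have hν : ∀ (q : E) (ρ : ℝ), ∫⁻ x in closedBall q ρ, ‖D x‖ₑ ^ n = ν (closedBall q ρ) :=
    fun q ρ => (withDensity_apply _ measurableSet_closedBall).symm
  have main : ENNReal.ofReal (κ ^ n * l) ≤ ENNReal.ofReal (8 * Λ * d) * e := by
    calc ENNReal.ofReal (κ ^ n * l) = ENNReal.ofReal (κ ^ n) * volume (Ioo s₀ (s₀ + l)) := by
          rw [ENNReal.ofReal_mul (by positivity)]; simp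
      _ ≤ ENNReal.ofReal (κ ^ n) * volume (⋃ s ∈ u, closedBall s (4 * r s)) := by
          gcongr
          intro s hs
          obtain ⟨t, ht, hst⟩ := hcov s hs
          exact mem_biUnion ht (hst (mem_closedBall_self (hr s hs).le))
      _ ≤ ENNReal.ofReal (κ ^ n) * ∑' s : u, volume (closedBall (s : ℝ) (4 * r s)) := by
          gcongr; exact measure_biUnion_le _ cu _
      _ ≤ ∑' s : u, ENNReal.ofReal (8 * Λ * d) * ν (closedBall (p s) (r s)) := by
          rw [← ENNReal.tsum_mul_left]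
          refine ENNReal.tsum_le_tsum fun s => ?_
          rw [← hν, Real.volume_closedBall, ← ENNReal.ofReal_mul (by positivity)]
          refine le_trans (le_of_eq ?_) (hpr s (hu s.2))
          congr 1; ring
      _ = ENNReal.ofReal (8 * Λ * d) * ν (⋃ s ∈ u, closedBall (p s) (r s)) := by
          rw [ENNReal.tsum_mul_left, measure_biUnion cu hdisj' fun _ _ => measurableSet_closedBall]
      _ ≤ _ := by
          rw [he, hν]
          gcongr
          refine iUnion₂_subset fun s hs => closedBall_subset_closedBall' ?_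
          linarith [hrd s (hu hs), hp s (hu hs), (hu hs).2]
  calc ENNReal.ofReal (τ ^ n * l)
      = ENNReal.ofReal ((2 * n + 2) ^ n) * ENNReal.ofReal (κ ^ n * l) := by
        rw [← ENNReal.ofReal_mul (by positivity), τκ, mul_pow, mul_assoc]
    _ ≤ ENNReal.ofReal ((2 * n + 2) ^ n) * (ENNReal.ofReal (8 * Λ * d) * e) := by gcongr
    _ = _ := by
        rw [← mul_assoc, ← ENNReal.ofReal_mul (by positivity)]
        congr 2; ring

/-- **Loewner estimate.** -/
theorem WD.loewner (hn : 1 ≤ n) (hE : finrank ℝ E = n) (hU : IsOpen U) (h : WD n U w D)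
    (hc : ContinuousOn w U) {z : E} {d l a b s₀ s₁ : ℝ} (hB : closedBall z (2 * d) ⊆ U)
    (hl : 0 < l) (hab : a ≤ b) (h0 : 0 ≤ s₀) (h0' : s₀ + l ≤ d) (h1 : 0 ≤ s₁) (h1' : s₁ + l ≤ d)
    (hb : ∀ s ∈ Ioo s₀ (s₀ + l), ∃ p, b ≤ w p ∧ dist p z = s)
    (ha : ∀ s ∈ Ioo s₁ (s₁ + l), ∃ p, w p ≤ a ∧ dist p z = s) :
    ENNReal.ofReal ((b - a) ^ n * l) ≤
      ENNReal.ofReal (2 ^ n * (8 * (2 * n + 2) ^ n * cmpConst E n) * d) *
        ∫⁻ x in closedBall z (2 * d), ‖D x‖ₑ ^ n := by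
  rcases hab.eq_or_lt with rfl | hab'
  · simp [show n ≠ 0 by omega]
  obtain ⟨c, ac⟩ := h.exists_appr hn hE hU hB
  have hτ : 0 < (b - a) / 2 := by linarith
  have key : ENNReal.ofReal (((b - a) / 2) ^ n * l) ≤
      ENNReal.ofReal (8 * (2 * n + 2) ^ n * cmpConst E n * d) *
        ∫⁻ x in closedBall z (2 * d), ‖D x‖ₑ ^ n := by
    rcases le_total c ((a + b) / 2) with hc' | hc'
    · refine h.content hn hE hU hc hB hl hτ ac h0 h0' fun s hs => ?_
      obtain ⟨p, h2, h3⟩ := hb s hs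
      exact ⟨p, le_abs.2 (Or.inl (by linarith)), h3⟩
    · refine h.content hn hE hU hc hB hl hτ ac h1 h1' fun s hs => ?_
      obtain ⟨p, h2, h3⟩ := ha s hs
      exact ⟨p, le_abs.2 (Or.inr (by linarith)), h3⟩
  calc ENNReal.ofReal ((b - a) ^ n * l)
      = ENNReal.ofReal (2 ^ n) * ENNReal.ofReal (((b - a) / 2) ^ n * l) := by
        rw [← ENNReal.ofReal_mul (by positivity), ← mul_assoc, ← mul_pow]
        congr 3; ring
    _ ≤ ENNReal.ofReal (2 ^ n) * (ENNReal.ofReal (8 * (2 * n + 2) ^ n * cmpConst E n * d) *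
        ∫⁻ x in closedBall z (2 * d), ‖D x‖ₑ ^ n) := by gcongr
    _ = _ := by
        rw [← mul_assoc, ← ENNReal.ofReal_mul (by positivity)]
        congr 2; ring

end Pool.Agent.Lib.Sob
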