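import Pool.Agent.Lib.Sob.Basic

/-! Mollification: convergence in `L^n` and almost everywhere, commutation with weak derivatives. -/

open MeasureTheory Set Filter Topology Metric
open scoped ContDiff RealInnerProductSpace ENNReal Convolution

noncomputable section
namespace Pool.Agent.Lib.Sob

section General
variable {α : Type*} [MeasurableSpace α] {μ : Measure α} {n : ℕ}
  {V : Type*} [NormedAddCommGroup V]

theorem lintegral_pow_eq (hn : 1 ≤ n) (f : α → V) :
    ∫⁻ x, ‖f x‖ₑ ^ n ∂μ = eLpNorm f n μ ^ n := by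
  have h := eLpNorm_nnreal_pow_eq_lintegral (μ := μ) (f := f) (p := (n : NNReal))
    (by exact_mod_cast (by omega : n ≠ 0))
  simpa using h.symm

theorem lintegral_pow_lt_top (hn : 1 ≤ n) {f : α → V} (h : MemLp f n μ) :
    ∫⁻ x, ‖f x‖ₑ ^ n ∂μ < ⊤ := by
  rw [lintegral_pow_eq hn]; exact ENNReal.pow_lt_top h.2

theorem memLp_of_lintegral_pow (hn : 1 ≤ n) {f : α → V} (hm : AEStronglyMeasurable f μ)
    (h : ∫⁻ x, ‖f x‖ₑ ^ n ∂μ < ⊤) : MemLp f n μ := by
  rw [lintegral_pow_eq hn] at h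
  refine ⟨hm, ?_⟩
  by_contra h'
  rw [not_lt, top_le_iff] at h'
  rw [h', ENNReal.top_pow (by omega)] at h
  exact lt_irrefl _ h

/-- Jensen inequality for powers. -/
theorem lintegral_pow_jensen (hn : 1 ≤ n) [IsProbabilityMeasure μ] {g : α → ℝ≥0∞}
    (hg : AEMeasurable g μ) : (∫⁻ x, g x ∂μ) ^ n ≤ ∫⁻ x, g x ^ n ∂μ := by
  have h := eLpNorm_le_eLpNorm_of_exponent_le (μ := μ) (f := g) (p := 1) (q := n)
    (by exact_mod_cast hn) hg.aestronglyMeasurable
  have h2 := eLpNorm_nnreal_pow_eq_lintegral (μ := μ) (f := g) (p := (n : NNReal))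
    (by exact_mod_cast (by omega : n ≠ 0))
  rw [eLpNorm_one_eq_lintegral_enorm] at h
  simp only [enorm_eq_self] at h
  have h3 : ∫⁻ x, g x ^ n ∂μ = eLpNorm g n μ ^ n := by simpa using h2.symm
  rw [h3]
  exact pow_le_pow_left' h n

theorem add_pow_le_ennreal (n : ℕ) (a b : ℝ≥0∞) :
    (a + b) ^ n ≤ 2 ^ n * (a ^ n + b ^ n) := by
  calc (a + b) ^ n ≤ (2 * max a b) ^ n := by
        gcongr; rw [two_mul]; exact add_le_add (le_max_left _ _) (le_max_right _ _)
    _ = 2 ^ n * max a b ^ n := mul_pow _ _ _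
    _ ≤ _ := by
        gcongr
        rcases le_total a b with h | h
        · rw [max_eq_right h]; exact le_add_self
        · rw [max_eq_left h]; exact le_self_add

theorem enorm_add_pow_le (n : ℕ) (a b : V) :
    ‖a + b‖ₑ ^ n ≤ 2 ^ n * (‖a‖ₑ ^ n + ‖b‖ₑ ^ n) :=
  (pow_le_pow_left' (enorm_add_le a b) n).trans (add_pow_le_ennreal n _ _)

theorem enorm_sub_pow_le (n : ℕ) (a b : V) :
    ‖a - b‖ₑ ^ n ≤ 2 ^ n * (‖a‖ₑ ^ n + ‖b‖ₑ ^ n) := by
  simpa [sub_eq_add_neg] using enorm_add_pow_le n a (-b)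

/-- Pratt's version of dominated convergence. -/
theorem tendsto_lintegral_pratt {J G : ℕ → α → ℝ≥0∞} {g : α → ℝ≥0∞}
    (hJ : ∀ k, AEMeasurable (J k) μ) (hG : ∀ k, AEMeasurable (G k) μ)
    (hle : ∀ k x, J k x ≤ G k x) (h0 : ∀ᵐ x ∂μ, Tendsto (fun k => J k x) atTop (𝓝 0))
    (h1 : ∀ᵐ x ∂μ, Tendsto (fun k => G k x) atTop (𝓝 (g x)))
    (hI : ∀ k, ∫⁻ x, G k x ∂μ ≤ ∫⁻ x, g x ∂μ) (hfin : ∫⁻ x, g x ∂μ ≠ ⊤) :
    Tendsto (fun k => ∫⁻ x, J k x ∂μ) atTop (𝓝 0) := by
  set I := ∫⁻ x, g x ∂μ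
  have hsum : ∀ k, ∫⁻ x, (G k x - J k x) ∂μ + ∫⁻ x, J k x ∂μ ≤ I := by
    intro k
    rw [← lintegral_add_right' _ (hJ k)]
    refine le_trans (lintegral_mono fun x => ?_) (hI k)
    exact (tsub_add_cancel_of_le (hle k x)).le
  have hF : I ≤ liminf (fun k => ∫⁻ x, (G k x - J k x) ∂μ) atTop := by
    refine le_trans (le_of_eq ?_) (lintegral_liminf_le' fun k => (hG k).sub (hJ k))
    refine lintegral_congr_ae ?_
    filter_upwards [h0, h1] with x a b
    have := ENNReal.Tendsto.sub b a (Or.inr ENNReal.zero_ne_top)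
    rw [tsub_zero] at this
    exact this.liminf_eq.symm
  rw [ENNReal.tendsto_nhds_zero]
  intro ε hε
  by_contra hc
  have hc' : ∃ᶠ k in atTop, ε ≤ ∫⁻ x, J k x ∂μ :=
    (not_eventually.1 hc).mono fun k hk => (not_le.1 hk).le
  have hεI : ε ≤ I := by
    obtain ⟨k, hk⟩ := hc'.exists
    exact hk.trans (le_add_self.trans (hsum k))
  have : liminf (fun k => ∫⁻ x, (G k x - J k x) ∂μ) atTop ≤ I - ε := by
    refine liminf_le_of_frequently_le' (hc'.mono fun k hk => ?_)
    refine ENNReal.le_sub_of_add_le_right (ne_top_of_le_ne_top hfin hεI) ?_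
    exact le_trans (by gcongr) (hsum k)
  exact absurd (hF.trans this) (not_le.2 (ENNReal.sub_lt_self hfin
    (hε.trans_le hεI).ne' hε.ne'))

/-- Riesz lemma: a.e. convergence and control of the norms give convergence in `L^n`. -/
theorem tendsto_lintegral_riesz (hn : 1 ≤ n) {f : ℕ → α → V} {g : α → V}
    (hf : ∀ k, AEStronglyMeasurable (f k) μ) (hg : MemLp g n μ)
    (h1 : ∀ᵐ x ∂μ, Tendsto (fun k => f k x) atTop (𝓝 (g x)))
    (hI : ∀ k, ∫⁻ x, ‖f k x‖ₑ ^ n ∂μ ≤ ∫⁻ x, ‖g x‖ₑ ^ n ∂μ) :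
    Tendsto (fun k => ∫⁻ x, ‖f k x - g x‖ₑ ^ n ∂μ) atTop (𝓝 0) := by
  have mg : AEMeasurable (fun x => ‖g x‖ₑ ^ n) μ := hg.1.enorm.pow_const n
  have fin := (lintegral_pow_lt_top hn hg).ne
  refine tendsto_lintegral_pratt (G := fun k x => 2 ^ n * (‖f k x‖ₑ ^ n + ‖g x‖ₑ ^ n))
    (g := fun x => 2 ^ n * (‖g x‖ₑ ^ n + ‖g x‖ₑ ^ n))
    (fun k => ((hf k).sub hg.1).enorm.pow_const n)
    (fun k => (((hf k).enorm.pow_const n).add mg).const_mul _)
    (fun k x => enorm_sub_pow_le n _ _) ?_ ?_ (fun k => ?_) ?_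
  · filter_upwards [h1] with x hx
    have : Tendsto (fun k => ‖f k x - g x‖ₑ ^ n) atTop (𝓝 (‖g x - g x‖ₑ ^ n)) :=
      ENNReal.Tendsto.pow ((hx.sub tendsto_const_nhds).enorm)
    simpa [show n ≠ 0 by omega] using this
  · filter_upwards [h1] with x hx
    refine ENNReal.Tendsto.const_mul ((ENNReal.Tendsto.pow hx.enorm).add tendsto_const_nhds) ?_
    right; simp
  · rw [lintegral_const_mul' _ _ (by simp), lintegral_const_mul' _ _ (by simp),
      lintegral_add_right' _ mg, lintegral_add_right' _ mg]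
    exact mul_le_mul_right (add_le_add_left (hI k) _) _
  · rw [lintegral_const_mul' _ _ (by simp), lintegral_add_right' _ mg]
    exact ENNReal.mul_ne_top (by simp) (ENNReal.add_ne_top.2 ⟨fin, fin⟩)

/-- `L^n` convergence implies `L^1` convergence on a finite measure space. -/
theorem tendsto_lintegral_one_of_pow (hn : 1 ≤ n) [IsFiniteMeasure μ] {f : ℕ → α → V}
    (hf : ∀ k, AEStronglyMeasurable (f k) μ)
    (h : Tendsto (fun k => ∫⁻ x, ‖f k x‖ₑ ^ n ∂μ) atTop (𝓝 0)) :
    Tendsto (fun k => ∫⁻ x, ‖f k x‖ₑ ∂μ) atTop (𝓝 0) := by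
  have h1 : Tendsto (fun k => eLpNorm (f k) n μ) atTop (𝓝 0) := by
    simp only [lintegral_pow_eq hn] at h
    have := h.ennrpow_const ((n : ℝ)⁻¹)
    have hn' : (0 : ℝ) < n := by exact_mod_cast hn
    rw [ENNReal.zero_rpow_of_pos (inv_pos.2 hn')] at this
    refine this.congr fun k => ?_
    rw [← ENNReal.rpow_natCast, ← ENNReal.rpow_mul, mul_inv_cancel₀ hn'.ne', ENNReal.rpow_one]
  have h2 := ENNReal.Tendsto.mul_const (b := μ univ ^ (1 / (1 : ℝ≥0∞).toReal - 1 / (n : ℝ≥0∞).toReal))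
    h1 (Or.inr (ENNReal.rpow_ne_top_of_nonneg (by
      have hn' : (1 : ℝ) ≤ n := by exact_mod_cast hn
      simpa using inv_le_one_of_one_le₀ hn') (measure_ne_top _ _)))
  rw [zero_mul] at h2
  refine tendsto_of_tendsto_of_tendsto_of_le_of_le tendsto_const_nhds h2 (fun _ => zero_le)
    fun k => ?_
  rw [← eLpNorm_one_eq_lintegral_enorm]
  exact eLpNorm_le_eLpNorm_mul_rpow_measure_univ (by exact_mod_cast hn) (hf k)

end General

variable {E : Type*} [NormedAddCommGroup E] [InnerProductSpace ℝ E] [FiniteDimensional ℝ E]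
  [MeasurableSpace E] [BorelSpace E] {V W : Type*} [NormedAddCommGroup V] [NormedSpace ℝ V]
  [NormedAddCommGroup W] [NormedSpace ℝ W] {n : ℕ} {U : Set E}

variable (E) in
/-- The standard bump functions. -/
def bump (k : ℕ) : ContDiffBump (0 : E) :=
  ⟨1 / ((k : ℝ) + 1) / 2, 1 / ((k : ℝ) + 1), by positivity, half_lt_self (by positivity)⟩

/-- The standard mollification. -/
def moll (k : ℕ) (g : E → V) : E → V :=
  (bump E k).normed volume ⋆[ContinuousLinearMap.lsmul ℝ ℝ, volume] g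

omit [MeasurableSpace E] [BorelSpace E] [FiniteDimensional ℝ E] in
theorem tendsto_bump_rOut : Tendsto (fun k => (bump E k).rOut) atTop (𝓝 0) :=
  tendsto_one_div_add_atTop_nhds_zero_nat

theorem contDiff_moll (k : ℕ) {g : E → V} (hg : LocallyIntegrable g) : ContDiff ℝ ∞ (moll k g) :=
  (bump E k).hasCompactSupport_normed.contDiff_convolution_left _ (bump E k).contDiff_normed hg

theorem ae_tendsto_moll [CompleteSpace V] {g : E → V} (hg : LocallyIntegrable g) :
    ∀ᵐ x, Tendsto (fun k => moll k g x) atTop (𝓝 (g x)) :=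
  ContDiffBump.ae_convolution_tendsto_right_of_locallyIntegrable (K := 2) tendsto_bump_rOut
    (Eventually.of_forall fun k => by simp only [bump]; linarith) hg

theorem tendsto_moll_of_continuous [CompleteSpace V] {g : E → V} (hg : Continuous g) (x : E) :
    Tendsto (fun k => moll k g x) atTop (𝓝 (g x)) :=
  ContDiffBump.convolution_tendsto_right_of_continuous tendsto_bump_rOut hg x

theorem moll_eq_zero {k : ℕ} {g : E → V} {K : Set E} (h0 : ∀ x ∉ K, g x = 0) {x : E}
    (hx : x ∉ cthickening (1 / ((k : ℝ) + 1)) K) : moll k g x = 0 := by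
  unfold moll
  rw [convolution_lsmul_swap]
  refine integral_eq_zero_of_ae (Eventually.of_forall fun t => ?_)
  by_cases ht : t ∈ K
  · have : (bump E k).normed volume (x - t) = 0 := by
      by_contra h
      have h' : x - t ∈ Function.support ((bump E k).normed volume) := h
      rw [(bump E k).support_normed_eq, mem_ball, dist_zero_right] at h'
      exact hx (mem_cthickening_of_dist_le x t _ K ht (by rw [dist_eq_norm]; exact h'.le))
    simp [this]
  · simp [h0 t ht]

theorem lintegral_moll_le (hn : 1 ≤ n) (k : ℕ) {g : E → V} (hg : AEStronglyMeasurable g volume) :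
    ∫⁻ x, ‖moll k g x‖ₑ ^ n ≤ ∫⁻ x, ‖g x‖ₑ ^ n := by
  set ρ := (bump E k).normed volume
  have cρ : Continuous ρ := (bump E k).continuous_normed
  have mρ : Measurable fun t => ENNReal.ofReal (ρ t) := cρ.measurable.ennreal_ofReal
  set G := hg.enorm.mk _
  have mG : Measurable G := hg.enorm.measurable_mk
  have eG : (fun x => ‖g x‖ₑ) =ᵐ[volume] G := hg.enorm.ae_eq_mk
  set ν : Measure E := volume.withDensity fun t => ENNReal.ofReal (ρ t)
  have : IsProbabilityMeasure ν := ⟨by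
    rw [withDensity_apply _ MeasurableSet.univ, Measure.restrict_univ,
      ← ofReal_integral_eq_lintegral_ofReal (bump E k).integrable_normed
        (Eventually.of_forall (bump E k).nonneg_normed), (bump E k).integral_normed]
    simp⟩
  have h1 : ∀ x, ‖moll k g x‖ₑ ^ n ≤ ∫⁻ t, G (x - t) ^ n ∂ν := by
    intro x
    have mx : Measurable fun t => G (x - t) := mG.comp (measurable_const.sub measurable_id)
    refine le_trans (pow_le_pow_left' ?_ n) (lintegral_pow_jensen hn mx.aemeasurable)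
    rw [lintegral_withDensity_eq_lintegral_mul _ mρ mx]
    refine (enorm_integral_le_lintegral_enorm _).trans (le_of_eq (lintegral_congr_ae ?_))
    filter_upwards [(volume.measurePreserving_sub_left x).quasiMeasurePreserving.ae_eq_comp eG]
      with t ht
    simp only [Function.comp] at ht
    simp only [ContinuousLinearMap.lsmul_apply, enorm_smul, Pi.mul_apply, ht]
    rw [Real.enorm_eq_ofReal ((bump E k).nonneg_normed t)]
  refine (lintegral_mono h1).trans ?_
  rw [lintegral_lintegral_swap (((mG.comp measurable_sub).pow_const n).aemeasurable)]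
  have h2 : ∀ t, ∫⁻ x, G (x - t) ^ n = ∫⁻ x, ‖g x‖ₑ ^ n := by
    intro t
    rw [lintegral_sub_right_eq_self (fun x => G x ^ n) t]
    refine lintegral_congr_ae ?_
    filter_upwards [eG] with x hx
    rw [← hx]
  simp [h2]

theorem tendsto_lintegral_moll [CompleteSpace V] (hn : 1 ≤ n) {g : E → V} (hg : MemLp g n volume) :
    Tendsto (fun k => ∫⁻ x, ‖moll k g x - g x‖ₑ ^ n) atTop (𝓝 0) := by
  have hl : LocallyIntegrable g := hg.locallyIntegrable (by exact_mod_cast hn)
  exact tendsto_lintegral_riesz hn (fun k => (contDiff_moll k hl).continuous.aestronglyMeasurable)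
    hg (ae_tendsto_moll hl) (fun k => lintegral_moll_le hn k hg.1)

theorem WD.fderiv_moll [CompleteSpace V] (hn : 1 ≤ n) {u : E → V} {D : E → E →L[ℝ] V}
    (h : WD n univ u D) (k : ℕ) : fderiv ℝ (moll k u) = moll k D := by
  funext x
  set ρ := (bump E k).normed volume
  have sρ : ContDiff ℝ ∞ ρ := (bump E k).contDiff_normed
  have cρ : HasCompactSupport ρ := (bump E k).hasCompactSupport_normed
  have lu := h.1.locallyIntegrable hn
  have lD := h.2.1.locallyIntegrable hn
  have h1 := (cρ.hasFDerivAt_convolution_left (ContinuousLinearMap.lsmul ℝ ℝ)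
    (sρ.of_le (by simp)) lu x).fderiv
  unfold moll
  rw [h1]
  ext e
  have i1 := ((cρ.fderiv ℝ).convolutionExists_left
    ((ContinuousLinearMap.lsmul ℝ ℝ : ℝ →L[ℝ] V →L[ℝ] V).precompL E)
    (sρ.continuous_fderiv (by simp)) lu x).integrable_swap
  have i2 := (cρ.convolutionExists_left (ContinuousLinearMap.lsmul ℝ ℝ) sρ.continuous lD
    x).integrable_swap
  rw [convolution_eq_swap, convolution_eq_swap, ContinuousLinearMap.integral_apply i1,
    ContinuousLinearMap.integral_apply i2]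
  have ht : IsTest univ (fun t => ρ (x - t)) :=
    ⟨sρ.comp (contDiff_const.sub contDiff_id), cρ.comp_homeomorph (Homeomorph.subLeft x),
      subset_univ _⟩
  have key := h.2.2 _ ht e
  have hd : ∀ t, fderiv ℝ (fun t => ρ (x - t)) t e = -fderiv ℝ ρ (x - t) e := by
    intro t
    have := ((sρ.differentiable (by simp) (x - t)).hasFDerivAt.comp t
      ((hasFDerivAt_id t).const_sub x)).fderiv
    rw [show (fun t => ρ (x - t)) = ρ ∘ HSub.hSub x from rfl, this]
    simp
  simp only [hd, neg_smul, integral_neg, neg_inj] at key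
  simpa using key

/-- Smooth approximation of a weak pair on a compact set. -/
theorem WD.approx [CompleteSpace V] (hn : 1 ≤ n) (hU : IsOpen U) {u : E → V}
    {D : E → E →L[ℝ] V} (h : WD n U u D) {K : Set E} (hK : IsCompact K) (hKU : K ⊆ U) :
    ∃ v : ℕ → E → V, (∀ k, ContDiff ℝ ∞ (v k)) ∧
      (∀ᵐ x, x ∈ K → Tendsto (fun k => v k x) atTop (𝓝 (u x))) ∧
      Tendsto (fun k => ∫⁻ x in K, ‖v k x - u x‖ₑ ^ n) atTop (𝓝 0) ∧
      Tendsto (fun k => ∫⁻ x in K, ‖fderiv ℝ (v k) x - D x‖ₑ ^ n) atTop (𝓝 0) := by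
  obtain ⟨u', D', K', O, hg, m1, m2, -, -, -, hKO, -, -, -, e1, e2, -⟩ :=
    h.exists_global hn hU hK hKU
  have lu := hg.1.locallyIntegrable hn
  refine ⟨fun k => moll k u', fun k => contDiff_moll k lu, ?_, ?_, ?_⟩
  · filter_upwards [ae_tendsto_moll lu] with x hx hxK
    rwa [e1 x (hKO hxK)] at hx
  · refine tendsto_of_tendsto_of_tendsto_of_le_of_le tendsto_const_nhds
      (tendsto_lintegral_moll hn m1) (fun _ => zero_le) fun k => ?_
    refine le_trans (le_of_eq ?_) (setLIntegral_le_lintegral K _)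
    exact setLIntegral_congr_fun hK.measurableSet fun x hx => by rw [e1 x (hKO hx)]
  · refine tendsto_of_tendsto_of_tendsto_of_le_of_le tendsto_const_nhds
      (tendsto_lintegral_moll hn m2) (fun _ => zero_le) fun k => ?_
    refine le_trans (le_of_eq ?_) (setLIntegral_le_lintegral K _)
    exact setLIntegral_congr_fun hK.measurableSet fun x hx => by
      rw [e2 x (hKO hx), hg.fderiv_moll hn]

/-- Limits in `L^1_loc` of weak pairs. -/
theorem WD.of_tendsto_one [CompleteSpace V] (hn : 1 ≤ n) {u : E → V} {D : E → E →L[ℝ] V}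
    (l1 : LocLp n U u) (l2 : LocLp n U D)
    (h : ∀ K, IsCompact K → K ⊆ U → ∃ O, K ⊆ O ∧ ∃ (uk : ℕ → E → V) (Dk : ℕ → E → E →L[ℝ] V),
      (∀ k, WD n O (uk k) (Dk k)) ∧
      Tendsto (fun k => ∫⁻ x in K, ‖uk k x - u x‖ₑ) atTop (𝓝 0) ∧
      Tendsto (fun k => ∫⁻ x in K, ‖Dk k x - D x‖ₑ) atTop (𝓝 0)) : WD n U u D := by
  refine ⟨l1, l2, fun φ hφ e => ?_⟩
  obtain ⟨O, hO, uk, Dk, hk, t1, t2⟩ := h _ hφ.2.1 hφ.2.2
  have hφ' : IsTest O φ := ⟨hφ.1, hφ.2.1, hO⟩
  have gen : ∀ {ψ : E → ℝ}, Continuous ψ → tsupport ψ ⊆ tsupport φ → ∀ {f : ℕ → E → V}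
      {g : E → V} {F : ℕ → E → ℝ≥0∞} {c : ℝ≥0∞}, c ≠ ⊤ → (∀ k, LocLp n O (f k)) → LocLp n U g →
      (∀ k x, ‖f k x - g x‖ₑ ≤ c * F k x) →
      Tendsto (fun k => ∫⁻ x in tsupport φ, F k x) atTop (𝓝 0) →
      Tendsto (fun k => ∫ x, ψ x • f k x) atTop (𝓝 (∫ x, ψ x • g x)) := by
    intro ψ cψ sψ f g F c hc lf lg hF tF
    have cs : HasCompactSupport ψ := hφ.2.1.of_isClosed_subset (isClosed_tsupport _) sψ
    obtain ⟨C, hC⟩ := cs.exists_bound_of_continuous cψ
    refine tendsto_integral_of_L1 _ (lg.integrable_smul hn cψ cs (sψ.trans hφ.2.2)).1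
      (Eventually.of_forall fun k => (lf k).integrable_smul hn cψ cs (sψ.trans hO)) ?_
    have t := ENNReal.Tendsto.const_mul (a := ENNReal.ofReal C * c) tF
      (Or.inr (ENNReal.mul_ne_top ENNReal.ofReal_ne_top hc))
    rw [mul_zero] at t
    refine tendsto_of_tendsto_of_tendsto_of_le_of_le tendsto_const_nhds t (fun _ => zero_le)
      fun k => ?_
    rw [← lintegral_const_mul' _ _ (ENNReal.mul_ne_top ENNReal.ofReal_ne_top hc),
      ← lintegral_indicator (isClosed_tsupport φ).measurableSet]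
    refine lintegral_mono fun x => ?_
    by_cases hx : x ∈ tsupport φ
    · rw [indicator_of_mem hx, ← smul_sub, enorm_smul, mul_assoc]
      gcongr
      · rw [← ofReal_norm]; exact ENNReal.ofReal_le_ofReal (hC x)
      · exact hF k x
    · simp [image_eq_zero_of_notMem_tsupport (fun h => hx (sψ h))]
  have a1 := gen (hφ.continuous_fderiv_apply e) (tsupport_fderiv_apply_subset ℝ e)
    (c := 1) ENNReal.one_ne_top (fun k => (hk k).1) l1 (fun k x => by rw [one_mul]) t1
  have a2 := gen hφ.continuous Subset.rfl (c := ‖e‖ₑ) enorm_ne_top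
    (fun k => (hk k).2.1.apply e) (l2.apply e) (fun k x => by
      rw [mul_comm]; exact (Dk k x - D x).le_opENorm e) t2
  refine tendsto_nhds_unique a1 ?_
  simp only [fun k => (hk k).2.2 φ hφ' e]
  exact a2.neg

/-- Limits in `L^n_loc` of weak pairs. -/
theorem WD.of_tendsto [CompleteSpace V] (hn : 1 ≤ n) {u : E → V} {D : E → E →L[ℝ] V}
    (l1 : LocLp n U u) (l2 : LocLp n U D)
    (h : ∀ K, IsCompact K → K ⊆ U → ∃ O, K ⊆ O ∧ ∃ (uk : ℕ → E → V) (Dk : ℕ → E → E →L[ℝ] V),
      (∀ k, WD n O (uk k) (Dk k)) ∧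
      Tendsto (fun k => ∫⁻ x in K, ‖uk k x - u x‖ₑ ^ n) atTop (𝓝 0) ∧
      Tendsto (fun k => ∫⁻ x in K, ‖Dk k x - D x‖ₑ ^ n) atTop (𝓝 0)) : WD n U u D := by
  refine WD.of_tendsto_one hn l1 l2 fun K hK hKU => ?_
  obtain ⟨O, hO, uk, Dk, hk, t1, t2⟩ := h K hK hKU
  have : IsFiniteMeasure (volume.restrict K) := ⟨by simpa using hK.measure_lt_top⟩
  exact ⟨O, hO, uk, Dk, hk,
    tendsto_lintegral_one_of_pow hn (fun k => ((hk k).1 K hK hO).1.sub (l1 K hK hKU).1) t1,
    tendsto_lintegral_one_of_pow hn (fun k => ((hk k).2.1 K hK hO).1.sub (l2 K hK hKU).1) t2⟩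

/-- Compactly supported Sobolev functions are limits of test functions. -/
theorem WD.approx_test (hn : 1 ≤ n) {O K : Set E} (hO : IsOpen O) (hK : IsCompact K)
    (hKO : K ⊆ O) {φ : E → ℝ} {D : E → E →L[ℝ] ℝ} (h : WD n O φ D)
    (h0 : ∀ x ∈ O, x ∉ K → φ x = 0) :
    ∃ K' : Set E, IsCompact K' ∧ K ⊆ K' ∧ K' ⊆ O ∧ ∃ φk : ℕ → E → ℝ,
      (∀ k, IsTest K' (φk k)) ∧
      Tendsto (fun k => ∫⁻ x, ‖φk k x - K.indicator φ x‖ₑ ^ n) atTop (𝓝 0) ∧
      Tendsto (fun k => ∫⁻ x, ‖fderiv ℝ (φk k) x - K.indicator D x‖ₑ ^ n) atTop (𝓝 0) := by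
  have hOK : IsOpen (O \ K) := hO.sdiff hK.isClosed
  have hz : ∀ᵐ x, x ∈ O \ K → D x = 0 :=
    ((h.mono sdiff_subset).congr' (fun x hx => h0 x hx.1 hx.2) (fun _ _ => rfl)).unique hn hOK
      (WD.const hn 0)
  have h1 : WD n O (K.indicator φ) (K.indicator D) := by
    refine h.congr (Eventually.of_forall fun x hx => ?_) ?_
    · by_cases hxK : x ∈ K
      · simp [hxK]
      · simp [hxK, h0 x hx hxK]
    · filter_upwards [hz] with x hx hxO
      by_cases hxK : x ∈ K
      · simp [hxK]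
      · simp [hxK, hx ⟨hxO, hxK⟩]
  have hg : WD n univ (K.indicator φ) (K.indicator D) :=
    h1.glue_const hn isOpen_univ hO hK.isClosed (fun x hx => hKO hx.1) 0
      (fun x hx => indicator_of_notMem hx.2 _) (fun x hx => indicator_of_notMem hx.2 _)
  have m1 := hg.1.memLp_of_support hK (subset_univ _) (fun x hx => indicator_of_notMem hx _)
  have m2 := hg.2.1.memLp_of_support hK (subset_univ _) (fun x hx => indicator_of_notMem hx _)
  obtain ⟨δ, hδ, hδO⟩ := hK.exists_cthickening_subset_open hO hKO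
  obtain ⟨N, hN⟩ := exists_nat_one_div_lt hδ
  refine ⟨cthickening δ K, hK.cthickening, self_subset_cthickening K, hδO,
    fun k => moll (k + N) (K.indicator φ), fun k => ?_, ?_, ?_⟩
  · have hs : tsupport (moll (k + N) (K.indicator φ)) ⊆ cthickening δ K := by
      refine closure_minimal (fun x hx => ?_) isClosed_cthickening
      by_contra hx'
      refine hx (moll_eq_zero (K := K) (fun x hx => indicator_of_notMem hx _) fun h' => hx' ?_)
      refine cthickening_mono (le_trans ?_ hN.le) K h'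
      push_cast
      gcongr
      exact le_add_of_nonneg_left (by positivity)
    exact ⟨contDiff_moll _ (hg.1.locallyIntegrable hn),
      hK.cthickening.of_isClosed_subset (isClosed_tsupport _) hs, hs⟩
  · exact (tendsto_lintegral_moll hn m1).comp (tendsto_add_atTop_nat N)
  · simp only [hg.fderiv_moll hn]
    exact (tendsto_lintegral_moll hn m2).comp (tendsto_add_atTop_nat N)

end Pool.Agent.Lib.Sob
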